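import Pool.Agent.Lib.MP76b19e.Rob.KW

/-!
# Sums over pairs (problem MP_76b19e_co)

`pair_sum`: if the total masses of all sets `A` with at least three elements are at least
`(|A| - 2) ρ` then `ρ ^ (|K| - 2) Ival m K` is at most the sum of `Ival m e` over the pairs `e` in `K`.
`Ival_pair`: the value for a pair. `Ival_le_prod`: the product bound.
-/

set_option autoImplicit false

open Finset

namespace MP76b19e.Reg

open MP76b19e.Rob

variable {V : Type} [DecidableEq V]

/-- a pair is contained in all but two of the sets `A \ {u}` -/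
theorem sum_pairs_erase (A : Finset V) (f : Finset V → ℝ) :
    ∑ u ∈ A, ∑ e ∈ (A.erase u).powersetCard 2, f e =
      ((A.card : ℝ) - 2) * ∑ e ∈ A.powersetCard 2, f e := by
  have h1 : ∀ u ∈ A, ∑ e ∈ (A.erase u).powersetCard 2, f e =
      ∑ e ∈ A.powersetCard 2, if u ∉ e then f e else 0 := by
    intro u hu
    rw [← sum_filter]
    refine sum_congr ?_ fun _ _ => rfl
    ext e
    rw [mem_powersetCard, mem_filter, mem_powersetCard, subset_erase]
    tauto
  rw [sum_congr rfl h1, sum_comm, mul_sum]
  refine sum_congr rfl fun e he => ?_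
  rw [mem_powersetCard] at he
  rw [← sum_filter, sum_const, nsmul_eq_mul]
  have h2 : (A.filter fun u => u ∉ e) = A \ e := by
    ext u
    rw [mem_filter, mem_sdiff]
  rw [h2, card_sdiff_of_subset he.1, he.2, Nat.cast_sub (by
    rw [← he.2]; exact card_le_card he.1)]
  norm_num

theorem pair_sum {m : Finset V → ℝ} (h : PosM m) {K : Finset V} {ρ : ℝ} (hρ : 0 < ρ)
    (hpal : ∀ A ⊆ K, 3 ≤ A.card → ((A.card : ℝ) - 2) * ρ ≤ pal m A) (hK : 2 ≤ K.card) :
    ρ ^ (K.card - 2) * Ival m K ≤ ∑ e ∈ K.powersetCard 2, Ival m e := by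
  induction hc : K.card using Nat.strong_induction_on generalizing K with
  | _ n ih =>
    rcases Nat.eq_or_lt_of_le hK with h2 | h2
    · rw [← hc, ← h2, Nat.sub_self, pow_zero, one_mul]
      have h3 : K.powersetCard 2 = {K} := by
        rw [h2]
        exact powersetCard_self K
      rw [h3, sum_singleton]
    · have hne : K.Nonempty := card_pos.1 (by omega)
      have hp := hpal K Subset.rfl h2
      have hcK : (3 : ℝ) ≤ (K.card : ℝ) := by exact_mod_cast h2
      have hpos : 0 < pal m K := h.sum_pos hne
      rw [Ival_pal m hne, ← mul_div_assoc, div_le_iff₀ hpos]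
      have hS : 0 ≤ ∑ e ∈ K.powersetCard 2, Ival m e :=
        sum_nonneg fun e _ => (Ival_pos h e).le
      have h4 : ρ ^ (n - 2) * ∑ k ∈ K, Ival m (K.erase k) =
          ρ * ∑ k ∈ K, ρ ^ (n - 1 - 2) * Ival m (K.erase k) := by
        rw [← mul_sum, ← mul_assoc, ← pow_succ']
        congr 2
        omega
      rw [h4]
      have h5 : ∑ k ∈ K, ρ ^ (n - 1 - 2) * Ival m (K.erase k) ≤
          ((K.card : ℝ) - 2) * ∑ e ∈ K.powersetCard 2, Ival m e := by
        rw [← sum_pairs_erase]
        refine sum_le_sum fun k hk => ?_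
        have h6 := card_erase_of_mem hk
        exact ih (n - 1) (by omega)
          (fun A hA => hpal A (hA.trans (erase_subset _ _))) (by omega) (by omega)
      calc ρ * ∑ k ∈ K, ρ ^ (n - 1 - 2) * Ival m (K.erase k)
          ≤ ρ * (((K.card : ℝ) - 2) * ∑ e ∈ K.powersetCard 2, Ival m e) :=
            mul_le_mul_of_nonneg_left h5 hρ.le
        _ = (((K.card : ℝ) - 2) * ρ) * ∑ e ∈ K.powersetCard 2, Ival m e := by ring
        _ ≤ pal m K * ∑ e ∈ K.powersetCard 2, Ival m e :=
            mul_le_mul_of_nonneg_right hp hS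
        _ = _ := mul_comm _ _

/-- the value for one element -/
theorem Ival_one (m : Finset V → ℝ) (u : V) : Ival m {u} = 1 / pal m {u} := by
  rw [Ival_pal m (singleton_nonempty u), sum_singleton, erase_singleton, Ival_empty]

/-- the value for a pair -/
theorem Ival_pair (m : Finset V → ℝ) {u v : V} (huv : u ≠ v) :
    Ival m {u, v} = (1 / pal m {u} + 1 / pal m {v}) / pal m {u, v} := by
  have h1 : ({u, v} : Finset V).erase u = {v} := by
    rw [erase_insert (by rw [mem_singleton]; exact huv)]
  have h2 : ({u, v} : Finset V).erase v = {u} := by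
    rw [pair_comm, erase_insert (by rw [mem_singleton]; exact huv.symm)]
  rw [Ival_pal m (insert_nonempty u {v}), sum_pair huv, h1, h2, Ival_one, Ival_one, add_comm]

/-- the product bound -/
theorem Ival_le_prod {m : Finset V → ℝ} (h : PosM m) (K : Finset V) :
    Ival m K ≤ ∏ x ∈ K, (1 / m {x}) := by
  induction K using Finset.induction_on with
  | empty => rw [Ival_empty, prod_empty]
  | insert a K ha ih =>
    rw [prod_insert ha]
    have h1 := mul_Ival_le_erase h (mem_insert_self a K)
    rw [erase_insert ha] at h1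
    have h2 := h.2 a
    rw [one_div, ← div_eq_inv_mul, le_div_iff₀ h2]
    linarith

/-- mixed form: the elements of `T` are removed -/
theorem Ival_le_prod_sdiff {m : Finset V → ℝ} (h : PosM m) {K T : Finset V} (hT : T ⊆ K) :
    (∏ x ∈ T, m {x}) * Ival m K ≤ Ival m (K \ T) := by
  induction T using Finset.induction_on with
  | empty => rw [prod_empty, one_mul, sdiff_empty]
  | insert a T ha ih =>
    have h0 := ih ((subset_insert _ _).trans hT)
    have haK : a ∈ K \ T := mem_sdiff.2 ⟨hT (mem_insert_self a T), ha⟩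
    have h1 := mul_Ival_le_erase h haK
    have h2 : (K \ T).erase a = K \ insert a T := by
      ext x
      simp only [mem_erase, mem_sdiff, mem_insert]
      tauto
    rw [h2] at h1
    rw [prod_insert ha, mul_assoc]
    exact (mul_le_mul_of_nonneg_left h0 (h.2 a).le).trans h1

end MP76b19e.Reg
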