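import Pool.Agent.Lib.MP76b19e.Reg.A
import Pool.Agent.Lib.MP76b19e.Rob.LinkD

/-!
# Local data of a set with `k + 1` elements (problem MP_76b19e_co)

`KD`: the data of an independent set `K` with `k + 1` elements: `N T` is the number of vertices
dominated by `T`, `w` the number of vertices, `m` the masses, `b u` the number of large cliques with
trace `K \ {u}`.
-/

set_option autoImplicit false

open Finset

namespace MP76b19e.Reg

open MP76b19e.Rob

variable {V : Type} [DecidableEq V]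

/-- the data of a set with `k + 1` elements; the last level is `l + 1` -/
structure KD (K : Finset V) (lev : V → ℕ) (l : ℕ) (P ν : ℕ → ℕ) (w : ℕ) (N : Finset V → ℕ)
    (C : ℕ → ℕ) (m : Finset V → ℝ) (b : V → ℝ) : Prop where
  q1 : 1 ≤ P 0
  Pmono : ∀ j, P j < P (j + 1)
  ν1 : ∀ j ≤ l + 1, 1 ≤ ν j
  card : K.card = Nn ν (l + 1) + 1
  lev_le : ∀ x ∈ K, lev x ≤ l + 1
  wc : w + P (l + 1) = (∑ i ∈ range (l + 2), ν i * P i) + 1
  N0 : N ∅ = 0
  Nmono : ∀ T T', T ⊆ T' → N T ≤ N T'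
  Nsub : ∀ T T', N (T ∪ T') ≤ N T + N T'
  N1 : ∀ x ∈ K, N {x} ≤ P (lev x)
  Nnew : ∀ T ⊆ K, ∀ x ∈ K, x ∉ T → N T + 1 ≤ N (insert x T)
  NK : N K ≤ w
  pos : PosM m
  pal : ∀ A ⊆ K, pal m A = (w : ℝ) - N (K \ A)
  Cw : ∀ j ≤ l, C j ≤ w
  CK : N K = w → ∀ j ≤ l, C j = N (K.filter fun x => lev x ≤ j)
  b0 : ∀ u ∈ K, 0 ≤ b u
  b1 : ∀ u ∈ K, (P (l + 1) : ℝ) - ∑ x ∈ K.erase u, ((P (lev x) : ℝ) - N {x}) ≤ b u

variable {K : Finset V} {lev : V → ℕ} {l : ℕ} {P ν : ℕ → ℕ} {w : ℕ} {N : Finset V → ℕ}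
  {C : ℕ → ℕ} {m : Finset V → ℝ} {b : V → ℝ}

namespace KD

theorem P_le (h : KD K lev l P ν w N C m b) {i j : ℕ} (hij : i ≤ j) : P i ≤ P j := by
  induction hij with
  | refl => exact le_rfl
  | step _ ih => exact ih.trans (h.Pmono _).le

theorem P_pos (h : KD K lev l P ν w N C m b) (j : ℕ) : 1 ≤ P j :=
  h.q1.trans (h.P_le (Nat.zero_le j))

/-- subadditivity -/
theorem N_le_sum (h : KD K lev l P ν w N C m b) (T : Finset V) : N T ≤ ∑ x ∈ T, N {x} := by
  induction T using Finset.induction_on with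
  | empty => rw [h.N0, sum_empty]
  | insert a T ha ih =>
    rw [sum_insert ha, insert_eq]
    exact (h.Nsub _ _).trans (Nat.add_le_add_left ih _)

theorem N_le_P (h : KD K lev l P ν w N C m b) {T : Finset V} (hT : T ⊆ K) :
    N T ≤ ∑ x ∈ T, P (lev x) :=
  (h.N_le_sum T).trans (sum_le_sum fun x hx => h.N1 x (hT hx))

theorem N_insert_le (h : KD K lev l P ν w N C m b) (x : V) (T : Finset V) :
    N (insert x T) ≤ N {x} + N T := by
  rw [insert_eq]
  exact h.Nsub _ _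

theorem pal_one (h : KD K lev l P ν w N C m b) {u : V} (hu : u ∈ K) :
    Rob.pal m {u} = (w : ℝ) - N (K.erase u) := by
  rw [h.pal {u} (singleton_subset_iff.2 hu), erase_eq]

theorem sdiff_pair {u v : V} : K \ {u, v} = (K.erase u).erase v := by
  ext x
  simp only [mem_sdiff, mem_insert, mem_singleton, mem_erase]
  tauto

theorem pal_two (h : KD K lev l P ν w N C m b) {u v : V} (hu : u ∈ K) (hv : v ∈ K) :
    Rob.pal m {u, v} = (w : ℝ) - N ((K.erase u).erase v) := by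
  rw [h.pal {u, v} (insert_subset_iff.2 ⟨hu, singleton_subset_iff.2 hv⟩), sdiff_pair]

theorem N_erase_lt (h : KD K lev l P ν w N C m b) {u : V} (hu : u ∈ K) :
    N (K.erase u) + 1 ≤ N K := by
  have h1 := h.Nnew (K.erase u) (erase_subset _ _) u hu (notMem_erase u K)
  rwa [insert_erase hu] at h1

theorem N_erase_two (h : KD K lev l P ν w N C m b) {u v : V} (hu : u ∈ K) (hv : v ∈ K)
    (huv : u ≠ v) : N ((K.erase u).erase v) + 1 ≤ N (K.erase u) := by
  have hv' : v ∈ K.erase u := mem_erase.2 ⟨huv.symm, hv⟩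
  have h1 := h.Nnew ((K.erase u).erase v) ((erase_subset _ _).trans (erase_subset _ _)) v hv
    (notMem_erase v _)
  rwa [insert_erase hv'] at h1

/-- the large masses -/
theorem pal_ge (h : KD K lev l P ν w N C m b) {A : Finset V} (hA : A ⊆ K) (hc : 3 ≤ A.card) :
    ((A.card : ℝ) - 2) * ((P 0 : ℝ) - (K.card : ℝ) * ((P (l + 1) : ℝ) - P 0)) ≤
      Rob.pal m A := by
  rw [h.pal A hA]
  have hPL : ∀ x ∈ K, P (lev x) ≤ P (l + 1) := fun x hx => h.P_le (h.lev_le x hx)
  have h1 : N (K \ A) ≤ (K \ A).card * P (l + 1) := by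
    refine (h.N_le_P sdiff_subset).trans ?_
    have := sum_le_card_nsmul (K \ A) (fun x => P (lev x)) (P (l + 1))
      (fun x hx => hPL x (mem_sdiff.1 hx).1)
    rwa [smul_eq_mul] at this
  have hcard : (K \ A).card + A.card = K.card := card_sdiff_add_card_eq_card hA
  have h2 : Nn ν (l + 1) * P 0 ≤ ∑ i ∈ range (l + 2), ν i * P i := by
    unfold Nn
    rw [sum_mul]
    exact sum_le_sum fun i _ => Nat.mul_le_mul_left _ (h.P_le (Nat.zero_le i))
  have h3 := h.card
  have h4 := h.wc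
  have hq : P 0 ≤ P (l + 1) := h.P_le (Nat.zero_le _)
  have h1' : (N (K \ A) : ℝ) ≤ ((K \ A).card : ℝ) * P (l + 1) := by exact_mod_cast h1
  have hcard' : ((K \ A).card : ℝ) = (K.card : ℝ) - A.card := by
    have : ((K \ A).card : ℝ) + A.card = K.card := by exact_mod_cast hcard
    linarith
  have h2' : (Nn ν (l + 1) : ℝ) * P 0 ≤ ((∑ i ∈ range (l + 2), ν i * P i : ℕ) : ℝ) := by
    exact_mod_cast h2
  have h3' : (K.card : ℝ) = (Nn ν (l + 1) : ℝ) + 1 := by exact_mod_cast h3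
  have h4' : (w : ℝ) + P (l + 1) = ((∑ i ∈ range (l + 2), ν i * P i : ℕ) : ℝ) + 1 := by
    exact_mod_cast h4
  have hq' : (P 0 : ℝ) ≤ P (l + 1) := by exact_mod_cast hq
  have hc' : (3 : ℝ) ≤ (A.card : ℝ) := by exact_mod_cast hc
  have hAK : (A.card : ℝ) ≤ K.card := by exact_mod_cast card_le_card hA
  rw [hcard'] at h1'
  have h5 : (w : ℝ) - N (K \ A) ≥ ((K.card : ℝ) - 1) * P 0 + 1 - P (l + 1) -
      ((K.card : ℝ) - A.card) * P (l + 1) := by
    have : (Nn ν (l + 1) : ℝ) = (K.card : ℝ) - 1 := by linarith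
    rw [this] at h2'
    linarith
  refine le_trans ?_ h5
  have h6 : ((K.card : ℝ) - 1) * P 0 + 1 - P (l + 1) - ((K.card : ℝ) - A.card) * P (l + 1) =
      ((A.card : ℝ) - 2) * P 0 + 1 - ((K.card : ℝ) - A.card + 1) * ((P (l + 1) : ℝ) - P 0) := by
    ring
  rw [h6]
  have h7 : ((K.card : ℝ) - A.card + 1) * ((P (l + 1) : ℝ) - P 0) ≤
      ((A.card : ℝ) - 2) * ((K.card : ℝ) * ((P (l + 1) : ℝ) - P 0)) := by
    have h8 : 0 ≤ (P (l + 1) : ℝ) - P 0 := by linarith
    have h9 : ((K.card : ℝ) - A.card + 1) ≤ ((A.card : ℝ) - 2) * K.card := by nlinarith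
    nlinarith
  nlinarith

/-- the bound by pairs -/
theorem Ival_le (h : KD K lev l P ν w N C m b)
    (hρ : 0 < (P 0 : ℝ) - (K.card : ℝ) * ((P (l + 1) : ℝ) - P 0)) :
    ((P 0 : ℝ) - (K.card : ℝ) * ((P (l + 1) : ℝ) - P 0)) ^ (K.card - 2) * Ival m K ≤
      ∑ e ∈ K.powersetCard 2, Ival m e := by
  refine pair_sum h.pos hρ (fun A hA hc => h.pal_ge hA hc) ?_
  have h1 := h.card
  have h2 : ∑ i ∈ range (l + 1 + 1), 1 ≤ Nn ν (l + 1) := by
    unfold Nn
    exact sum_le_sum fun i hi => h.ν1 i (by have := mem_range.1 hi; omega)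
  rw [sum_const, card_range, smul_eq_mul, mul_one] at h2
  omega

theorem card_ge (h : KD K lev l P ν w N C m b) : l + 3 ≤ K.card := by
  have h1 := h.card
  have h2 : ∑ i ∈ range (l + 1 + 1), 1 ≤ Nn ν (l + 1) := by
    unfold Nn
    exact sum_le_sum fun i hi => h.ν1 i (by have := mem_range.1 hi; omega)
  rw [sum_const, card_range, smul_eq_mul, mul_one] at h2
  omega

/-- the masses of one and of two elements -/
theorem pal_one_ge (h : KD K lev l P ν w N C m b) {u : V} (hu : u ∈ K) :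
    1 ≤ Rob.pal m {u} := by
  rw [h.pal_one hu]
  have h1 := h.N_erase_lt hu
  have h2 := h.NK
  have h3 : ((N (K.erase u) + 1 : ℕ) : ℝ) ≤ (w : ℝ) := by exact_mod_cast h1.trans h2
  push_cast at h3
  linarith

theorem pal_two_ge (h : KD K lev l P ν w N C m b) {u v : V} (hu : u ∈ K) (hv : v ∈ K)
    (huv : u ≠ v) : Rob.pal m {u} + 1 ≤ Rob.pal m {u, v} := by
  rw [h.pal_one hu, h.pal_two hu hv]
  have h1 := h.N_erase_two hu hv huv
  have h3 : ((N ((K.erase u).erase v) + 1 : ℕ) : ℝ) ≤ (N (K.erase u) : ℝ) := by exact_mod_cast h1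
  push_cast at h3
  linarith

/-- the value of a pair is at most one -/
theorem Ival_pair_le (h : KD K lev l P ν w N C m b) {u v : V} (hu : u ∈ K) (hv : v ∈ K)
    (huv : u ≠ v) : Ival m {u, v} ≤ 2 / Rob.pal m {u, v} := by
  rw [Ival_pair m huv]
  have h1 := h.pal_one_ge hu
  have h2 := h.pal_one_ge hv
  have h3 := h.pal_two_ge hu hv huv
  have h4 : 0 < Rob.pal m {u, v} := by linarith
  refine div_le_div_of_nonneg_right ?_ h4.le
  have h5 : 1 / Rob.pal m {u} ≤ 1 := by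
    rw [div_le_one (by linarith)]
    exact h1
  have h6 : 1 / Rob.pal m {v} ≤ 1 := by
    rw [div_le_one (by linarith)]
    exact h2
  linarith

theorem Ival_pair_le_one (h : KD K lev l P ν w N C m b) {u v : V} (hu : u ∈ K) (hv : v ∈ K)
    (huv : u ≠ v) : Ival m {u, v} ≤ 1 := by
  refine (h.Ival_pair_le hu hv huv).trans ?_
  have h1 := h.pal_one_ge hu
  have h3 := h.pal_two_ge hu hv huv
  rw [div_le_one (by linarith)]
  linarith

/-- the crude bound for the sum over the pairs -/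
theorem sum_pairs_le (h : KD K lev l P ν w N C m b) :
    ∑ e ∈ K.powersetCard 2, Ival m e ≤ (K.card : ℝ) ^ 2 / 2 := by
  have h1 : ∑ e ∈ K.powersetCard 2, Ival m e ≤ ∑ e ∈ K.powersetCard 2, (1 : ℝ) := by
    refine sum_le_sum fun e he => ?_
    rw [mem_powersetCard] at he
    obtain ⟨u, v, huv, rfl⟩ := card_eq_two.1 he.2
    exact h.Ival_pair_le_one (he.1 (mem_insert_self _ _))
      (he.1 (mem_insert_of_mem (mem_singleton_self _))) huv
  refine h1.trans ?_
  rw [sum_const, card_powersetCard, nsmul_eq_mul, mul_one, Nat.cast_choose_two]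
  have : (0 : ℝ) ≤ (K.card : ℝ) := Nat.cast_nonneg _
  nlinarith

/-- the sum over the pairs with a large mass -/
theorem sum_pairs_le' (h : KD K lev l P ν w N C m b) {M : ℝ} (hM : 0 < M) (E : Finset (Finset V))
    (hE : E ⊆ K.powersetCard 2) (hz : ∀ e ∈ E, M ≤ Rob.pal m e) :
    ∑ e ∈ E, Ival m e ≤ (K.card : ℝ) ^ 2 / M := by
  have h1 : ∑ e ∈ E, Ival m e ≤ ∑ e ∈ K.powersetCard 2, (2 / M : ℝ) := by
    refine (sum_le_sum fun e he => ?_).trans
      (sum_le_sum_of_subset_of_nonneg hE fun _ _ _ => by positivity)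
    have he' := mem_powersetCard.1 (hE he)
    have hze := hz e he
    obtain ⟨u, v, huv, rfl⟩ := card_eq_two.1 he'.2
    refine (h.Ival_pair_le (he'.1 (mem_insert_self _ _))
      (he'.1 (mem_insert_of_mem (mem_singleton_self _))) huv).trans ?_
    exact div_le_div_of_nonneg_left (by norm_num) hM hze
  refine h1.trans ?_
  rw [sum_const, card_powersetCard, nsmul_eq_mul, Nat.cast_choose_two]
  have h2 : (0 : ℝ) ≤ (K.card : ℝ) := Nat.cast_nonneg _
  rw [div_mul_div_comm, div_le_div_iff₀ (by positivity) hM]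
  nlinarith [mul_nonneg h2 hM.le]

end KD

end MP76b19e.Reg
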