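import Pool.Agent.Lib.MP76b19e.Reg.B
import Pool.Agent.Lib.MP76b19e.Rob.Alpha

/-!
# The weight and the statistic for large `P 0` (problem MP_76b19e_co)
-/

set_option autoImplicit false

open Finset

namespace MP76b19e.Reg

open MP76b19e.Rob

variable {V : Type} [DecidableEq V] {K : Finset V} {lev : V → ℕ} {l : ℕ} {P ν : ℕ → ℕ} {w : ℕ}
  {N : Finset V → ℕ} {C : ℕ → ℕ} {m : Finset V → ℝ} {b : V → ℝ}

namespace KD

theorem card_sub (h : KD K lev l P ν w N C m b) :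
    K.card - 2 = ∑ j ∈ range (l + 2), (ν j - 1) + (l + 1) := by
  have h1 := h.card
  have h4 : ∑ j ∈ range (l + 2), ((ν j - 1) + 1) = ∑ j ∈ range (l + 2), ν j := by
    refine sum_congr rfl fun j hj => ?_
    have := h.ν1 j (by have := mem_range.1 hj; omega)
    omega
  rw [sum_add_distrib, sum_const, card_range, smul_eq_mul, mul_one] at h4
  unfold Nn at h1
  rw [show l + 1 + 1 = l + 2 by ring] at h1
  omega

/-- the weight -/
theorem weight_le (h : KD K lev l P ν w N C m b) :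
    (P 0 : ℝ) ^ (∑ j ∈ range (l + 2), (ν j - 1)) * ∏ j ∈ range (l + 1), (P j : ℝ) ≤
      (P (l + 1) : ℝ) ^ (K.card - 2) := by
  rw [h.card_sub, pow_add]
  have h0 : (0 : ℝ) ≤ (P 0 : ℝ) := Nat.cast_nonneg _
  have h1 : (P 0 : ℝ) ≤ P (l + 1) := by exact_mod_cast h.P_le (Nat.zero_le _)
  refine mul_le_mul (pow_le_pow_left₀ h0 h1 _) ?_ (prod_nonneg fun _ _ => Nat.cast_nonneg _)
    (by positivity)
  calc ∏ j ∈ range (l + 1), (P j : ℝ) ≤ ∏ _j ∈ range (l + 1), (P (l + 1) : ℝ) :=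
        prod_le_prod (fun _ _ => Nat.cast_nonneg _) fun j hj => by
          exact_mod_cast h.P_le (mem_range.1 hj).le
    _ = _ := by rw [prod_const, card_range]

/-- the ratio of the powers -/
theorem ratio (h : KD K lev l P ν w N C m b)
    (hq : 101 * (K.card : ℝ) ^ 2 * ((P (l + 1) : ℝ) - P 0) ≤ P 0) :
    0 < (P 0 : ℝ) - (K.card : ℝ) * ((P (l + 1) : ℝ) - P 0) ∧
    (P (l + 1) : ℝ) ^ (K.card - 2) * (100 / 101) ≤
      ((P 0 : ℝ) - (K.card : ℝ) * ((P (l + 1) : ℝ) - P 0)) ^ (K.card - 2) := by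
  have hn : (3 : ℝ) ≤ (K.card : ℝ) := by
    have := h.card_ge
    exact_mod_cast (by omega : 3 ≤ K.card)
  have hq0 : (1 : ℝ) ≤ P 0 := by exact_mod_cast h.q1
  have hP : (P 0 : ℝ) ≤ P (l + 1) := by exact_mod_cast h.P_le (Nat.zero_le _)
  set δ : ℝ := (P (l + 1) : ℝ) - P 0 with hδ
  have hδ0 : 0 ≤ δ := by rw [hδ]; linarith
  set n : ℝ := (K.card : ℝ) with hnn
  have hnδ : 101 * (n * δ) ≤ P 0 := by nlinarith
  have hPL : (P (l + 1) : ℝ) = P 0 + δ := by rw [hδ]; ring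
  have hρ : 0 < (P 0 : ℝ) - n * δ := by nlinarith
  refine ⟨hρ, ?_⟩
  have hPL0 : 0 < (P (l + 1) : ℝ) := by linarith
  have hx : (P 0 : ℝ) - n * δ = P (l + 1) * (1 + -((n + 1) * δ / P (l + 1))) := by
    rw [hPL]
    field_simp
    ring
  rw [hx, mul_pow]
  refine mul_le_mul_of_nonneg_left ?_ (by positivity)
  have hb1 : -2 ≤ -((n + 1) * δ / P (l + 1)) := by
    rw [neg_le_neg_iff, div_le_iff₀ hPL0]
    nlinarith
  refine le_trans ?_ (one_add_mul_le_pow hb1 _)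
  have hm : ((K.card - 2 : ℕ) : ℝ) = n - 2 := by
    rw [Nat.cast_sub (by have := h.card_ge; omega), ← hnn]
    norm_num
  rw [hm]
  have h3 : (n - 2) * ((n + 1) * δ / P (l + 1)) ≤ 1 / 101 := by
    rw [mul_div_assoc', div_le_iff₀ hPL0]
    nlinarith
  linarith

/-- the weighted integral -/
theorem weighted (h : KD K lev l P ν w N C m b)
    (hq : 101 * (K.card : ℝ) ^ 2 * ((P (l + 1) : ℝ) - P 0) ≤ P 0) {T : ℝ}
    (hT : T ≤ (P (l + 1) : ℝ) ^ (K.card - 2)) :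
    T * Ival m K ≤ 101 / 100 * ∑ e ∈ K.powersetCard 2, Ival m e := by
  obtain ⟨h1, h2⟩ := h.ratio hq
  have h3 := h.Ival_le h1
  have hI := (Ival_pos h.pos K).le
  have h4 : T * (100 / 101) * Ival m K ≤
      ((P 0 : ℝ) - (K.card : ℝ) * ((P (l + 1) : ℝ) - P 0)) ^ (K.card - 2) * Ival m K := by
    refine mul_le_mul_of_nonneg_right ?_ hI
    linarith
  linarith

theorem Ss_ge (h : KD K lev l P ν w N C m b) {j : ℕ} (hj : j ≤ l + 1) :
    (P j : ℝ) ≤ Ss P ν j := by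
  unfold Ss
  rw [sum_range_succ]
  have h1 : (0 : ℝ) ≤ ∑ i ∈ range j, (ν i : ℝ) * P i := sum_nonneg fun _ _ => by positivity
  have h2 : (1 : ℝ) ≤ ν j := by exact_mod_cast h.ν1 j hj
  have h3 : (0 : ℝ) ≤ (P j : ℝ) := Nat.cast_nonneg _
  nlinarith

theorem w_eq (h : KD K lev l P ν w N C m b) :
    (w : ℝ) = Ss P ν (l + 1) - P (l + 1) + 1 := by
  have h1 : (w : ℝ) + P (l + 1) = ((∑ i ∈ range (l + 2), ν i * P i : ℕ) : ℝ) + 1 := by
    exact_mod_cast h.wc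
  have h2 : Ss P ν (l + 1) = ((∑ i ∈ range (l + 2), ν i * P i : ℕ) : ℝ) := by
    unfold Ss
    push_cast
    rfl
  rw [h2]
  linarith

/-- the number of vertices is at most `k P 0` -/
theorem w_le (h : KD K lev l P ν w N C m b)
    (hq : 101 * (K.card : ℝ) ^ 2 * ((P (l + 1) : ℝ) - P 0) ≤ P 0) :
    (w : ℝ) ≤ ((K.card : ℝ) - 1) * P 0 := by
  have hn : (3 : ℝ) ≤ (K.card : ℝ) := by
    have := h.card_ge
    exact_mod_cast (by omega : 3 ≤ K.card)
  have hq0 : (1 : ℝ) ≤ P 0 := by exact_mod_cast h.q1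
  have hP : (P 0 : ℝ) + 1 ≤ P (l + 1) := by
    have h1 : P 0 + 1 ≤ P 1 := h.Pmono 0
    have h2 : P 1 ≤ P (l + 1) := h.P_le (by omega)
    exact_mod_cast h1.trans h2
  have h1 : Ss P ν (l + 1) ≤ (Nn ν (l + 1) : ℝ) * P (l + 1) := by
    rw [Ss_eq]
    have : 0 ≤ ∑ i ∈ range (l + 1), (Nn ν i : ℝ) * ((P (i + 1) : ℝ) - P i) := by
      refine sum_nonneg fun i _ => mul_nonneg (Nat.cast_nonneg _) ?_
      have : (P i : ℝ) ≤ P (i + 1) := by exact_mod_cast (h.Pmono i).le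
      linarith
    linarith
  have h2 := h.w_eq
  have h3 : (Nn ν (l + 1) : ℝ) = (K.card : ℝ) - 1 := by
    have : (K.card : ℝ) = (Nn ν (l + 1) : ℝ) + 1 := by exact_mod_cast h.card
    linarith
  rw [h3] at h1
  have hδ : 1 ≤ (P (l + 1) : ℝ) - P 0 := by linarith
  nlinarith

/-- the crude bound for the statistic -/
theorem bn_le_card (h : KD K lev l P ν w N C m b)
    (hq : 101 * (K.card : ℝ) ^ 2 * ((P (l + 1) : ℝ) - P 0) ≤ P 0) (j : ℕ) (hj : j ≤ l) :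
    bn P ν C j ≤ K.card := by
  have hw := h.w_le hq
  have hn : (3 : ℝ) ≤ (K.card : ℝ) := by
    have := h.card_ge
    exact_mod_cast (by omega : 3 ≤ K.card)
  have hq0 : (1 : ℝ) ≤ P 0 := by exact_mod_cast h.q1
  have hP : (P 0 : ℝ) + 1 ≤ P (l + 1) := by
    have h1 : P 0 + 1 ≤ P 1 := h.Pmono 0
    have h2 : P 1 ≤ P (l + 1) := h.P_le (by omega)
    exact_mod_cast h1.trans h2
  have hqn : (K.card : ℝ) ≤ P 0 := by nlinarith
  have h1 : ∀ i, i ≤ l → ((C i : ℝ) - Ss P ν i + P i) / P i ≤ (K.card : ℝ) - 1 := by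
    intro i hi
    have hPi : (0 : ℝ) < P i := by exact_mod_cast h.P_pos i
    have hPq : (P 0 : ℝ) ≤ P i := by exact_mod_cast h.P_le (Nat.zero_le i)
    rw [div_le_iff₀ hPi]
    have h2 : (C i : ℝ) ≤ w := by exact_mod_cast h.Cw i hi
    have h3 := h.Ss_ge (show i ≤ l + 1 by omega)
    nlinarith
  induction j with
  | zero =>
    change ((C 0 : ℝ) - Ss P ν 0 + P 0) / P 0 ≤ _
    have := h1 0 (Nat.zero_le _)
    linarith
  | succ j ih =>
    have ih' := ih (by omega)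
    change ((C (j + 1) : ℝ) - Ss P ν (j + 1) + P (j + 1)) / P (j + 1) +
        1 / P (j + 1) * max (bn P ν C j - 1) 0 ≤ _
    have h2 := h1 (j + 1) hj
    have hPi : (0 : ℝ) < P (j + 1) := by exact_mod_cast h.P_pos _
    have hPq : (P 0 : ℝ) ≤ P (j + 1) := by exact_mod_cast h.P_le (Nat.zero_le _)
    have h3 : 1 / (P (j + 1) : ℝ) * max (bn P ν C j - 1) 0 ≤ 1 := by
      rw [one_div, ← div_eq_inv_mul, div_le_one hPi]
      refine max_le ?_ hPi.le
      linarith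
    linarith

theorem rn_le_card (h : KD K lev l P ν w N C m b)
    (hq : 101 * (K.card : ℝ) ^ 2 * ((P (l + 1) : ℝ) - P 0) ≤ P 0) :
    rn P ν C (l + 1) ≤ K.card := by
  change max 0 (bn P ν C l) * gn P ν C l ≤ _
  have h1 := h.bn_le_card hq l le_rfl
  have h2 := gn_le_one P ν C l
  have h3 := gn_nonneg P ν C l
  have h4 : max 0 (bn P ν C l) ≤ K.card := max_le (Nat.cast_nonneg _) h1
  calc max 0 (bn P ν C l) * gn P ν C l ≤ K.card * 1 :=
        mul_le_mul h4 h2 h3 (Nat.cast_nonneg _)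
    _ = _ := mul_one _

/-- the carry -/
theorem carry (h : KD K lev l P ν w N C m b)
    (hq : 101 * (K.card : ℝ) ^ 2 * ((P (l + 1) : ℝ) - P 0) ≤ P 0) {j : ℕ} (hj : j ≤ l) {A : ℝ}
    (hA : ((C j : ℝ) - Ss P ν j + P j) / P j ≤ A) :
    bn P ν C j ≤ A + (K.card : ℝ) / P 0 := by
  have hq0 : (1 : ℝ) ≤ P 0 := by exact_mod_cast h.q1
  have hc : (0 : ℝ) ≤ (K.card : ℝ) / P 0 := by positivity
  rcases j with _ | j
  · change ((C 0 : ℝ) - Ss P ν 0 + P 0) / P 0 ≤ _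
    linarith
  · change ((C (j + 1) : ℝ) - Ss P ν (j + 1) + P (j + 1)) / P (j + 1) +
        1 / P (j + 1) * max (bn P ν C j - 1) 0 ≤ _
    have h1 := h.bn_le_card hq j (by omega)
    have hPi : (0 : ℝ) < P (j + 1) := by exact_mod_cast h.P_pos _
    have hPq : (P 0 : ℝ) ≤ P (j + 1) := by exact_mod_cast h.P_le (Nat.zero_le _)
    have h3 : 1 / (P (j + 1) : ℝ) * max (bn P ν C j - 1) 0 ≤ (K.card : ℝ) / P 0 := by
      rw [one_div, ← div_eq_inv_mul]
      have h4 : max (bn P ν C j - 1) 0 ≤ K.card := max_le (by linarith) (Nat.cast_nonneg _)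
      exact div_le_div₀ (Nat.cast_nonneg _) h4 (by linarith) hPq
    linarith

/-- at most two repetitions of the last cap -/
theorem bn_top (h : KD K lev l P ν w N C m b)
    (hq : 101 * (K.card : ℝ) ^ 2 * ((P (l + 1) : ℝ) - P 0) ≤ P 0) (hν : ν (l + 1) ≤ 2) :
    bn P ν C l ≤ 2 + ((P (l + 1) : ℝ) - P 0 + 1 + K.card) / P 0 := by
  have hq0 : (1 : ℝ) ≤ P 0 := by exact_mod_cast h.q1
  have hPl : (P 0 : ℝ) ≤ P l := by exact_mod_cast h.P_le (Nat.zero_le l)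
  have hw : (w : ℝ) ≤ Ss P ν l + P (l + 1) + 1 := by
    have h1 := h.w_eq
    have h2 : Ss P ν (l + 1) = Ss P ν l + (ν (l + 1) : ℝ) * P (l + 1) := by
      unfold Ss
      rw [sum_range_succ _ (l + 1)]
    have h3 : (ν (l + 1) : ℝ) ≤ 2 := by exact_mod_cast hν
    have h4 : (0 : ℝ) ≤ (P (l + 1) : ℝ) := Nat.cast_nonneg _
    nlinarith
  have hC : (C l : ℝ) ≤ w := by exact_mod_cast h.Cw l le_rfl
  have h1 : ((C l : ℝ) - Ss P ν l + P l) / P l ≤ 2 + ((P (l + 1) : ℝ) - P 0 + 1) / P 0 := by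
    have h2 : ((C l : ℝ) - Ss P ν l + P l) / P l ≤ 1 + ((P (l + 1) : ℝ) + 1) / P l := by
      rw [div_le_iff₀ (by linarith), add_mul, div_mul_cancel₀ _ (by linarith)]
      linarith
    have h3 : ((P (l + 1) : ℝ) + 1) / P l ≤ ((P (l + 1) : ℝ) + 1) / P 0 :=
      div_le_div_of_nonneg_left (by positivity) (by linarith) hPl
    have h4 : ((P (l + 1) : ℝ) + 1) / P 0 = 1 + ((P (l + 1) : ℝ) - P 0 + 1) / P 0 := by
      field_simp
      ring
    linarith
  have h5 := h.carry hq le_rfl h1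
  refine h5.trans (le_of_eq ?_)
  rw [add_assoc, ← add_div]

end KD

end MP76b19e.Reg
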