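import Pool.Agent.Lib.MP76b19e.Reg.C

/-!
# A pair of elements (problem MP_76b19e_co)

For two elements `u, v` of `K` and `K' = K \ {u, v}`: `ov` is the overlap of `v` with `K'`, `Oo` the
overlap inside `K'`, `De = w - ∑_{x ∈ K'} P (lev x)`, `md` the excess of a set below a level.
-/

set_option autoImplicit false

open Finset

namespace MP76b19e.Reg

open MP76b19e.Rob

variable {V : Type} [DecidableEq V]

/-- the excess at level `j` -/
noncomputable def md (A : Finset V) (lev : V → ℕ) (ν : ℕ → ℕ) (j : ℕ) : ℝ :=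
  ((A.filter fun x => lev x ≤ j).card : ℝ) - Nn ν j

omit [DecidableEq V] in
theorem sum_lev (A : Finset V) (lev : V → ℕ) (P ν : ℕ → ℕ) (j : ℕ) :
    ∑ x ∈ A.filter (fun x => lev x ≤ j), (P (lev x) : ℝ) =
      Ss P ν j + md A lev ν j * P j - ∑ i ∈ range j, md A lev ν i * ((P (i + 1) : ℝ) - P i) := by
  classical
  rw [cap_sum P lev j _ (fun k hk => (mem_filter.1 hk).2), Ss_eq]
  have h1 : ∀ i ∈ range j, (((A.filter fun x => lev x ≤ j).filter fun k => lev k ≤ i).card : ℝ) *
      ((P (i + 1) : ℝ) - P i) = md A lev ν i * ((P (i + 1) : ℝ) - P i) +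
        (Nn ν i : ℝ) * ((P (i + 1) : ℝ) - P i) := by
    intro i hi
    have h2 : (A.filter fun x => lev x ≤ j).filter (fun k => lev k ≤ i) =
        A.filter fun x => lev x ≤ i := by
      rw [filter_filter]
      refine filter_congr fun x _ => ?_
      have := mem_range.1 hi
      constructor
      · exact fun h => h.2
      · intro h
        exact ⟨by omega, h⟩
    rw [h2]
    unfold md
    ring
  rw [sum_congr rfl h1, sum_add_distrib]
  unfold md
  ring

/-- the overlap of `v` with `K \ {u, v}` -/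
noncomputable def ov (K : Finset V) (N : Finset V → ℕ) (u v : V) : ℝ :=
  (N {v} : ℝ) - ((N (K.erase u) : ℝ) - N ((K.erase u).erase v))

/-- the overlap inside `K \ {u, v}` -/
noncomputable def Oo (K : Finset V) (N : Finset V → ℕ) (u v : V) : ℝ :=
  ∑ x ∈ (K.erase u).erase v, (N {x} : ℝ) - N ((K.erase u).erase v)

/-- the number of vertices minus the caps -/
noncomputable def De (K : Finset V) (lev : V → ℕ) (P : ℕ → ℕ) (w : ℕ) (u v : V) : ℝ :=
  (w : ℝ) - ∑ x ∈ (K.erase u).erase v, (P (lev x) : ℝ)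

theorem Oo_comm (K : Finset V) (N : Finset V → ℕ) (u v : V) : Oo K N u v = Oo K N v u := by
  unfold Oo
  rw [erase_right_comm]

theorem De_comm (K : Finset V) (lev : V → ℕ) (P : ℕ → ℕ) (w : ℕ) (u v : V) :
    De K lev P w u v = De K lev P w v u := by
  unfold De
  rw [erase_right_comm]

variable {K : Finset V} {lev : V → ℕ} {l : ℕ} {P ν : ℕ → ℕ} {w : ℕ}
  {N : Finset V → ℕ} {C : ℕ → ℕ} {m : Finset V → ℝ} {b : V → ℝ} {u v : V}

namespace KD

theorem card_three (h : KD K lev l P ν w N C m b) : (3 : ℝ) ≤ (K.card : ℝ) := by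
  have := h.card_ge
  exact_mod_cast (by omega : 3 ≤ K.card)

theorem P_lt (h : KD K lev l P ν w N C m b) : (P 0 : ℝ) + 1 ≤ P (l + 1) := by
  have h1 : P 0 + 1 ≤ P 1 := h.Pmono 0
  have h2 : P 1 ≤ P (l + 1) := h.P_le (by omega)
  exact_mod_cast h1.trans h2

theorem ov_nonneg (h : KD K lev l P ν w N C m b) (hv : v ∈ K) (huv : u ≠ v) : 0 ≤ ov K N u v := by
  unfold ov
  have h1 := h.N_insert_le v ((K.erase u).erase v)
  rw [insert_erase (mem_erase.2 ⟨huv.symm, hv⟩)] at h1
  have h2 : (N (K.erase u) : ℝ) ≤ N {v} + N ((K.erase u).erase v) := by exact_mod_cast h1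
  linarith

theorem Oo_nonneg (h : KD K lev l P ν w N C m b) : 0 ≤ Oo K N u v := by
  unfold Oo
  have h1 := h.N_le_sum ((K.erase u).erase v)
  have h2 : (N ((K.erase u).erase v) : ℝ) ≤ ∑ x ∈ (K.erase u).erase v, (N {x} : ℝ) := by
    exact_mod_cast h1
  linarith

theorem b_ge (h : KD K lev l P ν w N C m b) (hu : u ∈ K) (hv : v ∈ K) (huv : u ≠ v) :
    ((P (l + 1) : ℝ) - P (lev v)) + ov K N u v + Oo K N u v + De K lev P w u v -
      Rob.pal m {u} ≤ b u := by
  refine le_trans (le_of_eq ?_) (h.b1 u hu)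
  rw [h.pal_one hu]
  have h1 := add_sum_erase (K.erase u) (fun x => (P (lev x) : ℝ) - N {x})
    (mem_erase.2 ⟨huv.symm, hv⟩)
  rw [← h1, sum_sub_distrib]
  unfold ov Oo De
  ring

theorem w_ge (h : KD K lev l P ν w N C m b) :
    ((K.card : ℝ) - 1) * P 0 + 1 - P (l + 1) ≤ w := by
  have h1 := h.w_eq
  have h2 : (Nn ν (l + 1) : ℝ) * P 0 ≤ Ss P ν (l + 1) := by
    unfold Ss Nn
    push_cast
    rw [sum_mul]
    refine sum_le_sum fun i _ => mul_le_mul_of_nonneg_left ?_ (Nat.cast_nonneg _)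
    exact_mod_cast h.P_le (Nat.zero_le i)
  have h3 : (Nn ν (l + 1) : ℝ) = (K.card : ℝ) - 1 := by
    have : (K.card : ℝ) = (Nn ν (l + 1) : ℝ) + 1 := by exact_mod_cast h.card
    linarith
  rw [h3] at h2
  linarith

theorem card_pair (hu : u ∈ K) (hv : v ∈ K) (huv : u ≠ v) :
    (((K.erase u).erase v).card : ℝ) = (K.card : ℝ) - 2 := by
  have h1 := card_erase_add_one hu
  have h2 := card_erase_add_one (mem_erase.2 ⟨huv.symm, hv⟩ : v ∈ K.erase u)
  have h3 : (((K.erase u).erase v).card + 2 : ℕ) = K.card := by omega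
  have h4 : (((K.erase u).erase v).card : ℝ) + 2 = K.card := by exact_mod_cast h3
  linarith

theorem De_ge (h : KD K lev l P ν w N C m b) (hu : u ∈ K) (hv : v ∈ K) (huv : u ≠ v) :
    1 - (K.card : ℝ) * ((P (l + 1) : ℝ) - P 0) ≤ De K lev P w u v := by
  unfold De
  have h1 := h.w_ge
  have h2 : ∑ x ∈ (K.erase u).erase v, (P (lev x) : ℝ) ≤ ((K.card : ℝ) - 2) * P (l + 1) := by
    rw [← card_pair hu hv huv, ← nsmul_eq_mul]
    refine sum_le_card_nsmul _ _ _ fun x hx => ?_
    exact_mod_cast h.P_le (h.lev_le x (mem_of_mem_erase (mem_of_mem_erase hx)))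
  have h3 := h.P_lt
  nlinarith

theorem De_eq (h : KD K lev l P ν w N C m b) (hu : u ∈ K) (hv : v ∈ K) (huv : u ≠ v) :
    De K lev P w u v = 1 + ∑ i ∈ range (l + 1), md ((K.erase u).erase v) lev ν i *
      ((P (i + 1) : ℝ) - P i) := by
  unfold De
  have h1 := sum_lev ((K.erase u).erase v) lev P ν (l + 1)
  have h2 : ((K.erase u).erase v).filter (fun x => lev x ≤ l + 1) = (K.erase u).erase v :=
    filter_true_of_mem fun x hx => h.lev_le x (mem_of_mem_erase (mem_of_mem_erase hx))
  have h3 : md ((K.erase u).erase v) lev ν (l + 1) = -1 := by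
    unfold md
    rw [h2, card_pair hu hv huv]
    have : (K.card : ℝ) = (Nn ν (l + 1) : ℝ) + 1 := by exact_mod_cast h.card
    linarith
  rw [h2, h3] at h1
  rw [h1, h.w_eq]
  ring

/-- the number of dominated vertices of the low elements -/
theorem C_le (h : KD K lev l P ν w N C m b) (hw : N K = w) {j : ℕ} (hj : j ≤ l) :
    (C j : ℝ) ≤ ∑ x ∈ ((K.erase u).erase v).filter (fun x => lev x ≤ j), (P (lev x) : ℝ) +
      N {u} + N {v} := by
  rw [h.CK hw j hj]
  have h1 : K.filter (fun x => lev x ≤ j) ⊆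
      insert u (insert v (((K.erase u).erase v).filter fun x => lev x ≤ j)) := by
    intro x hx
    rw [mem_filter] at hx
    rw [mem_insert, mem_insert, mem_filter, mem_erase, mem_erase]
    by_cases h2 : x = u
    · exact Or.inl h2
    · by_cases h3 : x = v
      · exact Or.inr (Or.inl h3)
      · exact Or.inr (Or.inr ⟨⟨h3, h2, hx.1⟩, hx.2⟩)
  have h2 := h.Nmono _ _ h1
  have h3 := h.N_insert_le u (insert v (((K.erase u).erase v).filter fun x => lev x ≤ j))
  have h4 := h.N_insert_le v (((K.erase u).erase v).filter fun x => lev x ≤ j)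
  have h5 := h.N_le_P (T := ((K.erase u).erase v).filter fun x => lev x ≤ j)
    ((filter_subset _ _).trans ((erase_subset _ _).trans (erase_subset _ _)))
  have h6 : N (K.filter fun x => lev x ≤ j) ≤
      ∑ x ∈ ((K.erase u).erase v).filter (fun x => lev x ≤ j), P (lev x) + N {u} + N {v} := by
    omega
  exact_mod_cast h6

/-- the two terms of the sum -/
theorem S_ge (h : KD K lev l P ν w N C m b) (hu : u ∈ K) (hv : v ∈ K) (huv : u ≠ v) :
    b u / Rob.pal m {u} + b v / Rob.pal m {v} ≤ ∑ x ∈ K, b x / Rob.pal m {x} := by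
  rw [← sum_pair (f := fun x => b x / Rob.pal m {x}) huv]
  refine sum_le_sum_of_subset_of_nonneg ?_ fun x hx _ => ?_
  · intro x hx
    rw [mem_insert, mem_singleton] at hx
    rcases hx with rfl | rfl
    · exact hu
    · exact hv
  · exact div_nonneg (h.b0 x hx) (by linarith [h.pal_one_ge hx])

theorem S_nonneg (h : KD K lev l P ν w N C m b) : 0 ≤ ∑ x ∈ K, b x / Rob.pal m {x} :=
  sum_nonneg fun x hx => div_nonneg (h.b0 x hx) (by linarith [h.pal_one_ge hx])

/-- the number of vertices dominated by one element of a critical pair -/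
theorem N_one_le (h : KD K lev l P ν w N C m b) (hu : u ∈ K) (hv : v ∈ K)
    {M M1 : ℝ} (hz : Rob.pal m {u, v} < M) (ho : Oo K N u v + ov K N u v < M1) :
    (N {v} : ℝ) ≤ M + M1 := by
  have h1 := h.pal_two hu hv
  have h2 := h.Oo_nonneg (u := u) (v := v)
  have h3 : N (K.erase u) ≤ w := (h.Nmono _ _ (erase_subset _ _)).trans h.NK
  have h4 : (N (K.erase u) : ℝ) ≤ w := by exact_mod_cast h3
  unfold ov at ho
  linarith

/-- the other pairs -/
theorem pal_other (h : KD K lev l P ν w N C m b) {a x y : V} (ha : a ∈ K) (hx : x ∈ K) (hy : y ∈ K)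
    (hxy : x ≠ y) (hax : a ≠ x) (hay : a ≠ y) {A : ℝ} (hA : (N {a} : ℝ) ≤ A) :
    (P 0 : ℝ) - (K.card : ℝ) * ((P (l + 1) : ℝ) - P 0) - A ≤ Rob.pal m {x, y} := by
  rw [h.pal_two hx hy]
  have h1 := h.w_ge
  have haK : a ∈ (K.erase x).erase y := mem_erase.2 ⟨hay, mem_erase.2 ⟨hax, ha⟩⟩
  have h2 := h.N_insert_le a (((K.erase x).erase y).erase a)
  rw [insert_erase haK] at h2
  have h3 := h.N_le_P (T := ((K.erase x).erase y).erase a)
    ((erase_subset _ _).trans ((erase_subset _ _).trans (erase_subset _ _)))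
  have h4 : (∑ z ∈ ((K.erase x).erase y).erase a, P (lev z)) ≤
      (((K.erase x).erase y).erase a).card * P (l + 1) := by
    rw [← smul_eq_mul]
    exact sum_le_card_nsmul _ _ _ fun z hz =>
      h.P_le (h.lev_le z (mem_of_mem_erase (mem_of_mem_erase (mem_of_mem_erase hz))))
  have h5 : ((((K.erase x).erase y).erase a).card : ℝ) = (K.card : ℝ) - 3 := by
    have h6 := card_pair hx hy hxy
    have h7 := card_erase_add_one haK
    have h8 : ((((K.erase x).erase y).erase a).card : ℝ) + 1 = ((K.erase x).erase y).card := by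
      exact_mod_cast h7
    linarith
  have h9 : (N ((K.erase x).erase y) : ℝ) ≤ N {a} +
      ((((K.erase x).erase y).erase a).card : ℝ) * P (l + 1) := by
    exact_mod_cast h2.trans (Nat.add_le_add_left (h3.trans h4) _)
  rw [h5] at h9
  have h10 := h.P_lt
  nlinarith

end KD

end MP76b19e.Reg
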