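import Pool.Agent.Lib.MP76b19e.Reg.D

/-!
# The tight configurations (problem MP_76b19e_co)

`KD.tight`: the inequality in the case that two elements `u, v` of the last level have mass one, there
are no overlaps and no excess.
-/

set_option autoImplicit false

open Finset

namespace MP76b19e.Reg

open MP76b19e.Rob

/-- the statistic is at most one of its factors -/
theorem rn_le_factor {P ν C : ℕ → ℕ} {l : ℕ} {A B : ℝ} (hA : 0 ≤ A) (hB : 0 ≤ B)
    (hl : bn P ν C l ≤ A) {i : ℕ} (hi : i < l) (hb : bn P ν C i ≤ B) :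
    rn P ν C (l + 1) ≤ A * B := by
  change max 0 (bn P ν C l) * gn P ν C l ≤ _
  refine mul_le_mul (max_le hA hl) ?_ (gn_nonneg _ _ _ _) hA
  have h1 := gn_close P ν C (le_refl i) hB hb
  have h2 := gn_anti P ν C (show i + 1 ≤ l by omega)
  have h3 := gn_le_one P ν C i
  nlinarith

theorem rn_le_last {P ν C : ℕ → ℕ} {l : ℕ} {A : ℝ} (hA : 0 ≤ A) (hl : bn P ν C l ≤ A) :
    rn P ν C (l + 1) ≤ A := by
  change max 0 (bn P ν C l) * gn P ν C l ≤ _
  have h3 := gn_le_one P ν C l
  have h4 := gn_nonneg P ν C l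
  calc max 0 (bn P ν C l) * gn P ν C l ≤ A * 1 := mul_le_mul (max_le hA hl) h3 h4 hA
    _ = A := mul_one A

variable {V : Type} [DecidableEq V] {K : Finset V} {lev : V → ℕ} {l : ℕ} {P ν : ℕ → ℕ} {w : ℕ}
  {N : Finset V → ℕ} {C : ℕ → ℕ} {m : Finset V → ℝ} {b : V → ℝ} {u v : V}

/-- the product of the caps of a set without excess -/
theorem prod_lev (h : KD K lev l P ν w N C m b) {A : Finset V} :
    ∀ j ≤ l, (∀ i ≤ j, md A lev ν i = 0) →
      (P 0 : ℝ) ^ (∑ i ∈ range (j + 1), (ν i - 1)) * ∏ i ∈ range (j + 1), (P i : ℝ) ≤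
        ∏ x ∈ A.filter (fun x => lev x ≤ j), (P (lev x) : ℝ) := by
  intro j
  induction j with
  | zero =>
    intro _ h0
    have h1 : ((A.filter fun x => lev x ≤ 0).card : ℝ) = ν 0 := by
      have := h0 0 le_rfl
      unfold md Nn at this
      rw [sum_range_one] at this
      linarith
    have h2 : (A.filter fun x => lev x ≤ 0).card = ν 0 := by exact_mod_cast h1
    have h3 : ∏ x ∈ A.filter (fun x => lev x ≤ 0), (P (lev x) : ℝ) = (P 0 : ℝ) ^ ν 0 := by
      rw [← h2, ← prod_const]
      refine prod_congr rfl fun x hx => ?_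
      rw [Nat.le_zero.1 (mem_filter.1 hx).2]
    rw [h3, sum_range_one, prod_range_one, ← pow_succ]
    have := h.ν1 0 (Nat.zero_le _)
    rw [show ν 0 - 1 + 1 = ν 0 by omega]
  | succ j ih =>
    intro hj h0
    have ih' := ih (by omega) fun i hi => h0 i (by omega)
    have hd : Disjoint (A.filter fun x => lev x ≤ j) (A.filter fun x => lev x = j + 1) := by
      rw [disjoint_left]
      intro x hx hx'
      have h1 := (mem_filter.1 hx).2
      have h2 := (mem_filter.1 hx').2
      omega
    have hun : A.filter (fun x => lev x ≤ j + 1) =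
        (A.filter fun x => lev x ≤ j) ∪ (A.filter fun x => lev x = j + 1) := by
      rw [← filter_or]
      refine filter_congr fun x _ => ?_
      omega
    have hc : (A.filter fun x => lev x = j + 1).card = ν (j + 1) := by
      have h1 := h0 j (by omega)
      have h2 := h0 (j + 1) le_rfl
      unfold md at h1 h2
      rw [hun, card_union_of_disjoint hd, Nn_succ] at h2
      push_cast at h2
      have h3 : ((A.filter fun x => lev x = j + 1).card : ℝ) = ν (j + 1) := by linarith
      exact_mod_cast h3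
    have h3 : ∏ x ∈ A.filter (fun x => lev x = j + 1), (P (lev x) : ℝ) =
        (P (j + 1) : ℝ) ^ ν (j + 1) := by
      rw [← hc, ← prod_const]
      refine prod_congr rfl fun x hx => ?_
      rw [(mem_filter.1 hx).2]
    rw [hun, prod_union hd, h3, sum_range_succ, prod_range_succ, pow_add]
    have h4 : (P 0 : ℝ) ^ (ν (j + 1) - 1) * P (j + 1) ≤ (P (j + 1) : ℝ) ^ ν (j + 1) := by
      have h5 := h.ν1 (j + 1) (by omega)
      have h6 : (P (j + 1) : ℝ) ^ ν (j + 1) = (P (j + 1) : ℝ) ^ (ν (j + 1) - 1) * P (j + 1) := by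
        rw [← pow_succ, show ν (j + 1) - 1 + 1 = ν (j + 1) by omega]
      rw [h6]
      refine mul_le_mul_of_nonneg_right ?_ (Nat.cast_nonneg _)
      refine pow_le_pow_left₀ (Nat.cast_nonneg _) ?_ _
      exact_mod_cast h.P_le (Nat.zero_le (j + 1))
    calc (P 0 : ℝ) ^ (∑ i ∈ range (j + 1), (ν i - 1)) * (P 0 : ℝ) ^ (ν (j + 1) - 1) *
          ((∏ i ∈ range (j + 1), (P i : ℝ)) * P (j + 1))
        = ((P 0 : ℝ) ^ (∑ i ∈ range (j + 1), (ν i - 1)) * ∏ i ∈ range (j + 1), (P i : ℝ)) *
          ((P 0 : ℝ) ^ (ν (j + 1) - 1) * P (j + 1)) := by ring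
      _ ≤ _ := mul_le_mul ih' h4 (by positivity)
          (prod_nonneg fun _ _ => Nat.cast_nonneg _)

/-- the tight configurations -/
theorem KD.tight (h : KD K lev l P ν w N C m b) (hu : u ∈ K) (hv : v ∈ K) (huv : u ≠ v)
    (hw : N K = w) (hlu : lev u = l + 1) (hlv : lev v = l + 1)
    (hp : Rob.pal m {u} = 1) (hp' : Rob.pal m {v} = 1) (hz : Rob.pal m {u, v} = 2)
    (ho : ov K N u v = 0) (ho' : ov K N v u = 0) (hO : Oo K N u v = 0)
    (hmd : ∀ i ≤ l, md ((K.erase u).erase v) lev ν i = 0) :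
    (P 0 : ℝ) ^ (∑ j ∈ range (l + 2), (ν j - 1)) * (∏ j ∈ range (l + 1), (P j : ℝ)) *
      (rn P ν C (l + 1) * Ival m K) ≤ 1 := by
  classical
  set K' := (K.erase u).erase v with hK'
  have hK'K : K' ⊆ K := (erase_subset _ _).trans (erase_subset _ _)
  have hcomm : (K.erase v).erase u = K' := by rw [hK', erase_right_comm]
  -- the numbers of dominated vertices
  have e1 := h.pal_one hu
  have e2 := h.pal_one hv
  have e3 := h.pal_two hu hv
  rw [hp] at e1
  rw [hp'] at e2
  rw [hz, ← hK'] at e3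
  have hNv : (N {v} : ℝ) = 1 := by
    unfold ov at ho
    rw [← hK'] at ho
    linarith
  have hNu : (N {u} : ℝ) = 1 := by
    unfold ov at ho'
    rw [hcomm] at ho'
    linarith
  have hDe := h.De_eq hu hv huv
  rw [sum_eq_zero (fun i hi => by
    rw [← hK', hmd i (by have := mem_range.1 hi; omega), zero_mul]), add_zero] at hDe
  unfold De at hDe
  rw [← hK'] at hDe
  have hsN : ∑ x ∈ K', (N {x} : ℝ) = N K' := by
    unfold Oo at hO
    rw [← hK'] at hO
    linarith
  have hsd : ∑ x ∈ K', ((P (lev x) : ℝ) - N {x}) = 1 := by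
    rw [sum_sub_distrib]
    linarith
  have hd0 : ∀ x ∈ K', 0 ≤ (P (lev x) : ℝ) - N {x} := by
    intro x hx
    have : (N {x} : ℝ) ≤ P (lev x) := by exact_mod_cast h.N1 x (hK'K hx)
    linarith
  have hd1 : ∀ x ∈ K', (P (lev x) : ℝ) - N {x} ≤ 1 := by
    intro x hx
    rw [← hsd]
    exact single_le_sum (f := fun x => (P (lev x) : ℝ) - N {x}) hd0 hx
  -- the masses
  have hm0 : m ∅ = 0 := by
    have h1 := h.pal ∅ (empty_subset _)
    rw [sdiff_empty, hw, sub_self] at h1
    unfold Rob.pal at h1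
    rw [powerset_empty, sum_singleton] at h1
    exact h1
  have hm1 : ∀ x ∈ K', (N {x} : ℝ) ≤ m {x} := by
    intro x hx
    have h1 : Rob.pal m {x} = m {x} := by
      have h2 : ({x} : Finset V).powerset = {∅, {x}} := by
        ext s
        rw [mem_powerset, subset_singleton_iff, mem_insert, mem_singleton]
      unfold Rob.pal
      rw [h2, sum_pair (singleton_nonempty x).ne_empty.symm, hm0, zero_add]
    rw [← h1, h.pal_one (hK'K hx)]
    have hxu : x ≠ u := by
      rintro rfl
      exact notMem_erase x K (mem_of_mem_erase hx)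
    have hxv : x ≠ v := by
      rintro rfl
      exact notMem_erase x _ hx
    have h2 : K.erase x ⊆ insert u (insert v (K'.erase x)) := by
      intro y hy
      rw [mem_erase] at hy
      rw [mem_insert, mem_insert, mem_erase, hK', mem_erase, mem_erase]
      by_cases h3 : y = u
      · exact Or.inl h3
      · by_cases h4 : y = v
        · exact Or.inr (Or.inl h4)
        · exact Or.inr (Or.inr ⟨hy.1, h4, h3, hy.2⟩)
    have h3 := h.Nmono _ _ h2
    have h4 := h.N_insert_le u (insert v (K'.erase x))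
    have h5 := h.N_insert_le v (K'.erase x)
    have h6 := h.N_le_sum (K'.erase x)
    have h7 := add_sum_erase K' (fun y => N {y}) hx
    have h8 : N (K.erase x) + N {x} ≤ N {u} + N {v} + ∑ y ∈ K', N {y} := by
      have : N {x} + ∑ y ∈ K'.erase x, N {y} = ∑ y ∈ K', N {y} := h7
      omega
    have h9 : (N (K.erase x) : ℝ) + N {x} ≤ N {u} + N {v} + ∑ y ∈ K', (N {y} : ℝ) := by
      exact_mod_cast h8
    linarith
  -- the integral
  have hI : (∏ x ∈ K', (N {x} : ℝ)) * Ival m K ≤ 1 := by
    have h1 := Ival_le_prod_sdiff h.pos hK'K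
    have h2 : K \ K' = {u, v} := by
      ext x
      rw [mem_sdiff, hK', mem_erase, mem_erase, mem_insert, mem_singleton]
      constructor
      · rintro ⟨h3, h4⟩
        by_cases h5 : x = u
        · exact Or.inl h5
        · by_cases h6 : x = v
          · exact Or.inr h6
          · exact absurd ⟨h6, h5, h3⟩ h4
      · rintro (rfl | rfl)
        · exact ⟨hu, fun h4 => h4.2.1 rfl⟩
        · exact ⟨hv, fun h4 => h4.1 rfl⟩
    rw [h2, Ival_pair m huv, hp, hp', hz] at h1
    norm_num at h1
    refine le_trans ?_ h1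
    refine mul_le_mul_of_nonneg_right ?_ (Ival_pos h.pos K).le
    exact prod_le_prod (fun _ _ => Nat.cast_nonneg _) fun x hx => hm1 x hx
  have hI0 := (Ival_pos h.pos K).le
  -- the statistic
  have hC : ∀ j ≤ l, (C j : ℝ) ≤ Ss P ν j -
      ∑ x ∈ K'.filter (fun x => lev x ≤ j), ((P (lev x) : ℝ) - N {x}) := by
    intro j hj
    rw [h.CK hw j hj]
    have h1 : K.filter (fun x => lev x ≤ j) = K'.filter (fun x => lev x ≤ j) := by
      ext x
      rw [mem_filter, mem_filter, hK', mem_erase, mem_erase]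
      constructor
      · rintro ⟨h2, h3⟩
        refine ⟨⟨?_, ?_, h2⟩, h3⟩
        · rintro rfl
          omega
        · rintro rfl
          omega
      · rintro ⟨⟨_, _, h2⟩, h3⟩
        exact ⟨h2, h3⟩
    rw [h1]
    have h2 := h.N_le_sum (K'.filter fun x => lev x ≤ j)
    have h3 : (N (K'.filter fun x => lev x ≤ j) : ℝ) ≤
        ∑ x ∈ K'.filter (fun x => lev x ≤ j), (N {x} : ℝ) := by exact_mod_cast h2
    have h4 := sum_lev K' lev P ν j
    rw [hmd j hj, zero_mul, sum_eq_zero (s := range j) (fun i hi => by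
      rw [hmd i (by have := mem_range.1 hi; omega), zero_mul]), add_zero, sub_zero] at h4
    rw [sum_sub_distrib, h4]
    linarith
  have hb : ∀ j ≤ l, bn P ν C j ≤
      1 - (∑ x ∈ K'.filter (fun x => lev x ≤ j), ((P (lev x) : ℝ) - N {x})) / P j := by
    intro j
    induction j with
    | zero =>
      intro h0
      change ((C 0 : ℝ) - Ss P ν 0 + P 0) / P 0 ≤ _
      have hP0 : (0 : ℝ) < P 0 := by exact_mod_cast h.P_pos 0
      rw [div_le_iff₀ hP0, sub_mul, div_mul_cancel₀ _ hP0.ne']
      have := hC 0 h0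
      linarith
    | succ j ih =>
      intro hj
      have ih' := ih (by omega)
      have hPj : (0 : ℝ) < P j := by exact_mod_cast h.P_pos j
      have hPj1 : (0 : ℝ) < P (j + 1) := by exact_mod_cast h.P_pos (j + 1)
      have h1 : 0 ≤ (∑ x ∈ K'.filter (fun x => lev x ≤ j), ((P (lev x) : ℝ) - N {x})) / P j :=
        div_nonneg (sum_nonneg fun x hx => hd0 x (mem_filter.1 hx).1) hPj.le
      change ((C (j + 1) : ℝ) - Ss P ν (j + 1) + P (j + 1)) / P (j + 1) +
        1 / P (j + 1) * max (bn P ν C j - 1) 0 ≤ _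
      rw [max_eq_right (by linarith), mul_zero, add_zero, div_le_iff₀ hPj1, sub_mul,
        div_mul_cancel₀ _ hPj1.ne']
      have := hC (j + 1) hj
      linarith
  have hb1 : ∀ j ≤ l, bn P ν C j ≤ 1 := by
    intro j hj
    have h1 := hb j hj
    have hPj : (0 : ℝ) < P j := by exact_mod_cast h.P_pos j
    have h2 : 0 ≤ (∑ x ∈ K'.filter (fun x => lev x ≤ j), ((P (lev x) : ℝ) - N {x})) / P j :=
      div_nonneg (sum_nonneg fun x hx => hd0 x (mem_filter.1 hx).1) hPj.le
    linarith
  -- the factors below the last level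
  have hR0 := rn_nonneg P ν C (l + 1)
  have hlow : rn P ν C (l + 1) * ∏ x ∈ K'.filter (fun x => lev x ≤ l), (P (lev x) : ℝ) ≤
      ∏ x ∈ K'.filter (fun x => lev x ≤ l), (N {x} : ℝ) := by
    by_cases hx : ∃ x ∈ K'.filter (fun x => lev x ≤ l), (P (lev x) : ℝ) - N {x} ≠ 0
    · obtain ⟨x, hxA, hx0⟩ := hx
      have hxK := (mem_filter.1 hxA).1
      have hxl := (mem_filter.1 hxA).2
      -- the loss of `x` is one
      have hxn : (1 : ℝ) ≤ (P (lev x) : ℝ) - N {x} := by
        have h1 : N {x} < P (lev x) := by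
          refine lt_of_le_of_ne (h.N1 x (hK'K hxK)) ?_
          intro h2
          apply hx0
          rw [h2, sub_self]
        have h2 : ((N {x} + 1 : ℕ) : ℝ) ≤ (P (lev x) : ℝ) := by exact_mod_cast h1
        push_cast at h2
        linarith
      have hx1 : (N {x} : ℝ) = P (lev x) - 1 := by
        have := hd1 x hxK
        linarith
      have hoth : ∀ y ∈ K', y ≠ x → (N {y} : ℝ) = P (lev y) := by
        intro y hy hyx
        have h1 := add_sum_erase K' (fun x => (P (lev x) : ℝ) - N {x}) hxK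
        have h2 := single_le_sum (f := fun x => (P (lev x) : ℝ) - N {x})
          (fun z hz => hd0 z (mem_of_mem_erase hz)) (mem_erase.2 ⟨hyx, hy⟩)
        have h3 := hd0 y hy
        have h4 : (P (lev y) : ℝ) - N {y} ≤
            ∑ x ∈ K'.erase x, ((P (lev x) : ℝ) - N {x}) := h2
        have h5 : (P (lev x) : ℝ) - N {x} + ∑ x ∈ K'.erase x, ((P (lev x) : ℝ) - N {x}) =
            ∑ x ∈ K', ((P (lev x) : ℝ) - N {x}) := h1
        linarith
      have hPx : (1 : ℝ) ≤ P (lev x) := by exact_mod_cast h.P_pos _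
      have hPx0 : (0 : ℝ) < P (lev x) := by linarith
      -- the statistic
      have hR : rn P ν C (l + 1) ≤ 1 - 1 / P (lev x) := by
        have h1 := hb (lev x) hxl
        have h2 : (1 : ℝ) ≤
            ∑ y ∈ K'.filter (fun y => lev y ≤ lev x), ((P (lev y) : ℝ) - N {y}) :=
          hxn.trans (single_le_sum (f := fun y => (P (lev y) : ℝ) - N {y})
            (fun y hy => hd0 y (mem_filter.1 hy).1) (mem_filter.2 ⟨hxK, le_rfl⟩))
        have h3 : bn P ν C (lev x) ≤ 1 - 1 / P (lev x) := by
          have := div_le_div_of_nonneg_right h2 hPx0.le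
          linarith
        have h4 : 0 ≤ 1 - 1 / (P (lev x) : ℝ) := by
          rw [sub_nonneg, div_le_one hPx0]
          exact hPx
        rcases Nat.lt_or_ge (lev x) l with h5 | h5
        · have := rn_le_factor zero_le_one h4 (hb1 l le_rfl) h5 h3
          rwa [one_mul] at this
        · have h6 : lev x = l := by omega
          rw [h6] at h3 h4 ⊢
          exact rn_le_last h4 h3
      rw [← mul_prod_erase _ _ hxA, ← mul_prod_erase _ (fun x => (N {x} : ℝ)) hxA, ← mul_assoc]
      have h5 : ∏ y ∈ (K'.filter fun x => lev x ≤ l).erase x, (P (lev y) : ℝ) =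
          ∏ y ∈ (K'.filter fun x => lev x ≤ l).erase x, (N {y} : ℝ) := by
        refine prod_congr rfl fun y hy => ?_
        rw [mem_erase] at hy
        exact (hoth y (mem_filter.1 hy.2).1 hy.1).symm
      rw [h5]
      refine mul_le_mul_of_nonneg_right ?_ (prod_nonneg fun _ _ => Nat.cast_nonneg _)
      rw [hx1]
      calc rn P ν C (l + 1) * P (lev x) ≤ (1 - 1 / P (lev x)) * P (lev x) :=
            mul_le_mul_of_nonneg_right hR hPx0.le
        _ = _ := by field_simp
    · push Not at hx
      have h5 : ∏ y ∈ K'.filter (fun x => lev x ≤ l), (P (lev y) : ℝ) =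
          ∏ y ∈ K'.filter (fun x => lev x ≤ l), (N {y} : ℝ) := by
        refine prod_congr rfl fun y hy => ?_
        have := hx y hy
        linarith
      rw [h5]
      have h6 := rn_le_last zero_le_one (hb1 l le_rfl)
      exact mul_le_of_le_one_left (prod_nonneg fun _ _ => Nat.cast_nonneg _) h6
  -- the factors of the last level
  have htop : (P 0 : ℝ) ^ (ν (l + 1) - 1) ≤
      ∏ x ∈ K'.filter (fun x => ¬ lev x ≤ l), (N {x} : ℝ) := by
    have hc : (K'.filter fun x => ¬ lev x ≤ l).card = ν (l + 1) - 1 := by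
      have h1 := card_filter_add_card_filter_not (s := K') (fun x => lev x ≤ l)
      have h2 := hmd l le_rfl
      unfold md at h2
      have h3 : (K'.filter fun x => lev x ≤ l).card = Nn ν l := by
        have : ((K'.filter fun x => lev x ≤ l).card : ℝ) = Nn ν l := by linarith
        exact_mod_cast this
      have h4 := card_erase_add_one hu
      have h5 := card_erase_add_one (mem_erase.2 ⟨huv.symm, hv⟩ : v ∈ K.erase u)
      have h6 := h.card
      rw [Nn_succ] at h6
      rw [← hK'] at h5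
      omega
    rw [← hc, ← prod_const]
    refine prod_le_prod (fun _ _ => Nat.cast_nonneg _) fun x hx => ?_
    have h1 := mem_filter.1 hx
    have h2 := h.lev_le x (hK'K h1.1)
    have h3 : lev x = l + 1 := by omega
    have h4 := hd1 x h1.1
    rw [h3] at h4
    have h5 := h.P_lt
    linarith
  have hprod := prod_lev h (A := K') l le_rfl hmd
  have hsplit := prod_filter_mul_prod_filter_not K' (fun x => lev x ≤ l) (fun x => (N {x} : ℝ))
  have e4 : ∑ j ∈ range (l + 2), (ν j - 1) = ∑ j ∈ range (l + 1), (ν j - 1) + (ν (l + 1) - 1) := by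
    rw [sum_range_succ]
  rw [e4, pow_add]
  refine le_trans ?_ hI
  rw [← mul_assoc]
  refine mul_le_mul_of_nonneg_right ?_ hI0
  rw [← hsplit]
  calc (P 0 : ℝ) ^ (∑ j ∈ range (l + 1), (ν j - 1)) * (P 0 : ℝ) ^ (ν (l + 1) - 1) *
        (∏ j ∈ range (l + 1), (P j : ℝ)) * rn P ν C (l + 1)
      = (rn P ν C (l + 1) * ((P 0 : ℝ) ^ (∑ j ∈ range (l + 1), (ν j - 1)) *
          ∏ j ∈ range (l + 1), (P j : ℝ))) * (P 0 : ℝ) ^ (ν (l + 1) - 1) := by ring
    _ ≤ (rn P ν C (l + 1) * ∏ x ∈ K'.filter (fun x => lev x ≤ l), (P (lev x) : ℝ)) *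
          (P 0 : ℝ) ^ (ν (l + 1) - 1) := by
        refine mul_le_mul_of_nonneg_right ?_ (by positivity)
        exact mul_le_mul_of_nonneg_left hprod hR0
    _ ≤ (∏ x ∈ K'.filter (fun x => lev x ≤ l), (N {x} : ℝ)) *
          ∏ x ∈ K'.filter (fun x => ¬ lev x ≤ l), (N {x} : ℝ) :=
        mul_le_mul hlow htop (by positivity) (prod_nonneg fun _ _ => Nat.cast_nonneg _)

end MP76b19e.Reg
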