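import Pool.Agent.Lib.MP76b19e.Reg.E
import Pool.Agent.Lib.MP76b19e.Rob.Loc

/-!
# The inequality for a set with `k + 1` elements (problem MP_76b19e_co)

`KD.main`: if `200 |K| ^ 4 ≤ P 0`, the product of the weight, the statistic and `Ival m K` is at most
`1 + ∑_{x ∈ K} b x / pal m {x}`.
-/

set_option autoImplicit false

open Finset

namespace MP76b19e.Reg

open MP76b19e.Rob

variable {V : Type} [DecidableEq V] {K : Finset V} {lev : V → ℕ} {l : ℕ} {P ν : ℕ → ℕ} {w : ℕ}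
  {N : Finset V → ℕ} {C : ℕ → ℕ} {m : Finset V → ℝ} {b : V → ℝ} {u v : V}

/-- `b_u / p_u` is large if there is much overlap -/
theorem KD.caseA (h : KD K lev l P ν w N C m b) (hu : u ∈ K) (hv : v ∈ K) (huv : u ≠ v)
    (hh : (P (l + 1) : ℝ) - P 0 ≤ 2 * (K.card : ℝ))
    (hz : Rob.pal m {u, v} < 25 * (K.card : ℝ) ^ 2)
    (ho : 30 * (K.card : ℝ) ^ 4 ≤ Oo K N u v + ov K N u v) :
    102 / 100 * (K.card : ℝ) ^ 2 ≤ 1 + b u / Rob.pal m {u} := by
  have hn := h.card_three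
  set n : ℝ := (K.card : ℝ) with hnn
  have h1 := h.b_ge hu hv huv
  have h2 := h.De_ge hu hv huv
  have h3 := h.pal_one_ge hu
  have h4 := h.pal_two_ge hu hv huv
  have h5 : (P (lev v) : ℝ) ≤ P (l + 1) := by exact_mod_cast h.P_le (h.lev_le v hv)
  rw [← hnn] at h2
  have h6 : n * ((P (l + 1) : ℝ) - P 0) ≤ n * (2 * n) := mul_le_mul_of_nonneg_left hh (by linarith)
  have h7 : (9 : ℝ) ≤ n ^ 2 := by nlinarith
  have h8 : n ^ 4 = n ^ 2 * n ^ 2 := by ring
  have h9 : (102 / 100 * n ^ 2 - 1) * Rob.pal m {u} ≤ b u := by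
    have h10 : 102 / 100 * n ^ 2 * Rob.pal m {u} ≤ 102 / 100 * n ^ 2 * (25 * n ^ 2) :=
      mul_le_mul_of_nonneg_left (by linarith) (by positivity)
    nlinarith
  have h11 : 102 / 100 * n ^ 2 - 1 ≤ b u / Rob.pal m {u} := by
    rw [le_div_iff₀ (by linarith)]
    exact h9
  linarith

/-- the other pairs are harmless -/
theorem KD.others (h : KD K lev l P ν w N C m b) (hu : u ∈ K) (hv : v ∈ K) (huv : u ≠ v)
    (hq : 200 * (K.card : ℝ) ^ 4 ≤ P 0) (hh : (P (l + 1) : ℝ) - P 0 ≤ 2 * (K.card : ℝ))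
    (hz : Rob.pal m {u, v} < 25 * (K.card : ℝ) ^ 2)
    (ho : Oo K N u v + ov K N u v < 30 * (K.card : ℝ) ^ 4)
    (ho' : Oo K N v u + ov K N v u < 30 * (K.card : ℝ) ^ 4) :
    ∑ e ∈ (K.powersetCard 2).erase {u, v}, Ival m e ≤ 1 / 1350 := by
  have hn := h.card_three
  set n : ℝ := (K.card : ℝ) with hnn
  have h7 : (9 : ℝ) ≤ n ^ 2 := by nlinarith
  have h8 : n ^ 4 = n ^ 2 * n ^ 2 := by ring
  have hNv := h.N_one_le hu hv hz ho
  have hNu := h.N_one_le hv hu (by rw [pair_comm]; exact hz) ho'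
  have h1 := h.sum_pairs_le' (M := 150 * n ^ 4) (by positivity) ((K.powersetCard 2).erase {u, v})
    (erase_subset _ _) (fun e he => by
      have he1 := mem_erase.1 he
      have he2 := mem_powersetCard.1 he1.2
      obtain ⟨x, y, hxy, rfl⟩ := card_eq_two.1 he2.2
      have hx : x ∈ K := he2.1 (mem_insert_self _ _)
      have hy : y ∈ K := he2.1 (mem_insert_of_mem (mem_singleton_self _))
      have h6 : n * ((P (l + 1) : ℝ) - P 0) ≤ n * (2 * n) :=
        mul_le_mul_of_nonneg_left hh (by linarith)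
      have key : ∀ a ∈ K, a ≠ x → a ≠ y → (N {a} : ℝ) ≤ 25 * n ^ 2 + 30 * n ^ 4 →
          150 * n ^ 4 ≤ Rob.pal m {x, y} := by
        intro a ha hax hay hA
        have h9 := h.pal_other ha hx hy hxy hax hay hA
        rw [← hnn] at h9
        nlinarith
      by_cases hux : u ≠ x ∧ u ≠ y
      · exact key u hu hux.1 hux.2 hNu
      · by_cases hvx : v ≠ x ∧ v ≠ y
        · exact key v hv hvx.1 hvx.2 hNv
        · exfalso
          apply he1.1
          rw [not_and_or, not_not, not_not] at hux hvx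
          rcases hux with h11 | h11 <;> rcases hvx with h13 | h13
          · exact absurd (h11.trans h13.symm) huv
          · rw [h11, h13]
          · rw [h11, h13, pair_comm]
          · exact absurd (h11.trans h13.symm) huv)
  refine h1.trans ?_
  rw [← hnn, div_le_div_iff₀ (by positivity) (by norm_num)]
  nlinarith

/-- the consequences of the first alternative -/
theorem KD.gap_one (h : KD K lev l P ν w N C m b)
    (hg : (∑ j ∈ range (l + 2), (ν j - 1) * (P j - P 0)) +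
      ∑ j ∈ range (l + 2), (P j - P 0 - j) ≤ l + 1) :
    (P (l + 1) : ℝ) - P 0 ≤ 2 * (K.card : ℝ) ∧ ν (l + 1) ≤ 2 := by
  have hP : ∀ j, P 0 + j ≤ P j := by
    intro j
    induction j with
    | zero => exact le_rfl
    | succ j ih =>
      have := h.Pmono j
      omega
  have h1 : P (l + 1) - P 0 - (l + 1) ≤ ∑ j ∈ range (l + 2), (P j - P 0 - j) :=
    single_le_sum (f := fun j => P j - P 0 - j) (fun _ _ => Nat.zero_le _)
      (mem_range.2 (by omega))
  have h2 : (ν (l + 1) - 1) * (P (l + 1) - P 0) ≤ ∑ j ∈ range (l + 2), (ν j - 1) * (P j - P 0) :=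
    single_le_sum (f := fun j => (ν j - 1) * (P j - P 0)) (fun _ _ => Nat.zero_le _)
      (mem_range.2 (by omega))
  have h3 := hP (l + 1)
  have h4 := h.card_ge
  constructor
  · have h5 : P (l + 1) ≤ P 0 + 2 * K.card := by omega
    have h6 : (P (l + 1) : ℝ) ≤ P 0 + 2 * (K.card : ℝ) := by exact_mod_cast h5
    linarith
  · by_contra hcon
    push Not at hcon
    have h5 : 2 * (l + 1) ≤ (ν (l + 1) - 1) * (P (l + 1) - P 0) :=
      Nat.mul_le_mul (by omega) (by omega)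
    omega

theorem KD.bn_low (h : KD K lev l P ν w N C m b)
    (hq : 200 * (K.card : ℝ) ^ 4 ≤ P 0)
    (hq' : 101 * (K.card : ℝ) ^ 2 * ((P (l + 1) : ℝ) - P 0) ≤ P 0)
    (hw : N K = w)
    (hNu : (N {u} : ℝ) ≤ 25 * (K.card : ℝ) ^ 2 + 30 * (K.card : ℝ) ^ 4)
    (hNv : (N {v} : ℝ) ≤ 25 * (K.card : ℝ) ^ 2 + 30 * (K.card : ℝ) ^ 4)
    {j : ℕ} (hj : j ≤ l) (hmd : ∀ i < j, 0 ≤ md ((K.erase u).erase v) lev ν i) :
    bn P ν C j ≤ md ((K.erase u).erase v) lev ν j + 1 + 33 / 100 := by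
  have hn := h.card_three
  set n : ℝ := (K.card : ℝ) with hnn
  have h7 : (9 : ℝ) ≤ n ^ 2 := by nlinarith
  have h8 : n ^ 4 = n ^ 2 * n ^ 2 := by ring
  have hq0 : (1 : ℝ) ≤ P 0 := by exact_mod_cast h.q1
  have hPj : (0 : ℝ) < P j := by exact_mod_cast h.P_pos j
  have hPq : (P 0 : ℝ) ≤ P j := by exact_mod_cast h.P_le (Nat.zero_le j)
  have h1 := h.C_le (u := u) (v := v) hw hj
  rw [sum_lev] at h1
  have h2 : 0 ≤ ∑ i ∈ range j, md ((K.erase u).erase v) lev ν i * ((P (i + 1) : ℝ) - P i) := by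
    refine sum_nonneg fun i hi => mul_nonneg (hmd i (mem_range.1 hi)) ?_
    have : (P i : ℝ) ≤ P (i + 1) := by exact_mod_cast (h.Pmono i).le
    linarith
  have h3 : ((C j : ℝ) - Ss P ν j + P j) / P j ≤ md ((K.erase u).erase v) lev ν j + 1 +
      (2 * (25 * n ^ 2 + 30 * n ^ 4)) / P 0 := by
    have h4 : ((C j : ℝ) - Ss P ν j + P j) / P j ≤ md ((K.erase u).erase v) lev ν j + 1 +
        (2 * (25 * n ^ 2 + 30 * n ^ 4)) / P j := by
      rw [div_le_iff₀ hPj, add_mul, div_mul_cancel₀ _ hPj.ne']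
      linarith
    have h5 : (2 * (25 * n ^ 2 + 30 * n ^ 4)) / P j ≤ (2 * (25 * n ^ 2 + 30 * n ^ 4)) / P 0 :=
      div_le_div_of_nonneg_left (by positivity) (by linarith) hPq
    linarith
  have h4 := h.carry hq' hj h3
  refine h4.trans ?_
  rw [← hnn, add_assoc, ← add_div]
  have h5 : (2 * (25 * n ^ 2 + 30 * n ^ 4) + n) / P 0 ≤ 33 / 100 := by
    rw [div_le_iff₀ (by linarith)]
    nlinarith
  linarith

end MP76b19e.Reg
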