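import Pool.Agent.Lib.MP76b19e.Reg.I
import Pool.Agent.Lib.MP76b19e.Rob.Assemble

/-!
# The formula for large `q` (problem MP_76b19e_co)
-/

set_option autoImplicit false

open Finset

namespace MP76b19e.Reg

open MP76b19e.Rob
open Pool.Agent.MP76b19e

section

variable {α : Type} [Fintype α] [DecidableEq α] {G : SimpleGraph α} {U : Finset α}
  {P ν : ℕ → ℕ} {L : ℕ}

/-- the lower bound for a profile with large `P 0` -/
theorem buildQ (hq : 2 ≤ P 0) (hP : ∀ j < L, P j < P (j + 1))
    (hν : ∀ j, 1 ≤ ν j) (hC : C G U 0 (blkL P ν (L + 1))) (g : ℕ) (hg : GapOk P ν L g)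
    (hbig : 200 * ((∑ j ∈ range (L + 1), ν j) + 1) ^ 4 ≤ P 0)
    (hgap : 101 * ((∑ j ∈ range (L + 1), ν j) + 1) ^ 2 * (P L - P 0) ≤ P 0) :
    (P 0) ^ g ≤ (K G U ((∑ j ∈ range (L + 1), ν j) + 1)).card := by
  have hP0L : ∀ j ≤ L, P 0 ≤ P j := by
    intro j
    induction j with
    | zero => intro _; exact le_rfl
    | succ j ih =>
      intro hj
      exact (ih (by omega)).trans (hP j (by omega)).le
  have h := build_aux (G := G) (U := U) (t := 0) false g
    (fun V β _ _ _ F W X T B M c hL _ hf =>
      hL.bound' g (fun Y hY => by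
        by_cases hcase : ∑ j ∈ range (L + 1), ν j < Y.card → L = 0
        · exact hL.ineq hY (fun h1 => Or.inl (hcase h1)) hg.le
        · push Not at hcase
          obtain ⟨h1, h2⟩ := hcase
          obtain ⟨l, rfl⟩ : ∃ l, L = l + 1 := ⟨L - 1, by omega⟩
          refine Loc.large hL (hf rfl) hY h1 hg ?_ ?_
          · have h3 : ((200 * ((∑ j ∈ range (l + 1 + 1), ν j) + 1) ^ 4 : ℕ) : ℝ) ≤ P 0 := by
              exact_mod_cast hbig
            push_cast at h3
            unfold Nn
            push_cast
            exact h3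
          · have h3 : ((101 * ((∑ j ∈ range (l + 1 + 1), ν j) + 1) ^ 2 *
                (P (l + 1) - P 0) : ℕ) : ℝ) ≤ P 0 := by exact_mod_cast hgap
            rw [Nat.cast_mul, Nat.cast_sub (hP0L (l + 1) le_rfl)] at h3
            push_cast at h3
            unfold Nn
            push_cast
            exact h3)) hq hP hν
    (fun j h1 h2 => absurd h1 (by omega)) hC
  rwa [add_zero] at h

end

/-- the lower bound for a sorted profile, `q` large -/
theorem listBoundQ {α : Type} [Fintype α] [DecidableEq α]
    (G : SimpleGraph α) (U : Finset α) (q : ℕ) (ps : List ℕ) (hq : 2 ≤ q)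
    (hle : (q :: ps).Pairwise (· ≤ ·))
    (hC : C G U 0 (q :: ps)) (m J : ℕ) (hm : (q :: ps).sum < m) (hJ : J ≤ ps.length)
    (hmax : ∀ j, j ≤ ps.length → j * (j + 1) / 2 + (ps.length + 1) * q < m → j ≤ J)
    (hbig : 200 * (ps.length + 2) ^ 4 ≤ q)
    (hN : m ≤ (ps.length + 1) * q + ps.length ^ 2 + 1) :
    q ^ (ps.length - J) ≤ (K G U (ps.length + 2)).card := by
  classical
  obtain ⟨N, P, ν, h1, h2, h3⟩ := rle _ hle
  obtain ⟨L, rfl⟩ : ∃ L, N = L + 1 := by
    rcases N with _ | N
    · rw [blk_zero] at h1
      exact absurd h1 (by simp)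
    · exact ⟨N, rfl⟩
  -- the first element
  have hP0 : P 0 = q := by
    obtain ⟨u, hu⟩ : ∃ u, ν 0 = u + 1 := ⟨ν 0 - 1, by have := h2 0; omega⟩
    rw [blk_succ', hu, List.replicate_succ, List.cons_append] at h1
    exact ((List.cons.injEq _ _ _ _).mp h1).1.symm
  have hlen : ps.length + 1 = ∑ j ∈ range (L + 1), ν j := by
    rw [← blk_length P ν (L + 1), ← h1, List.length_cons]
  have hsum : ∑ j ∈ range (L + 1), ν j * P j < m := by
    rw [← blk_sum, ← h1]
    exact hm
  have hPge : ∀ j, j < L + 1 → q + j ≤ P j := by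
    intro j
    induction j with
    | zero => intro _; omega
    | succ j ih =>
      intro hj
      have := ih (by omega)
      have := h3 j hj
      omega
  have hgauss : (∑ j ∈ range (L + 1), j) * 2 = (L + 1) * L := sum_range_id_mul_two (L + 1)
  -- the number of levels
  have hNJ : L ≤ J := by
    apply hmax
    · have h4 : ∑ j ∈ range (L + 1), 1 ≤ ∑ j ∈ range (L + 1), ν j := sum_le_sum fun j _ => h2 j
      rw [sum_const, card_range, smul_eq_mul, mul_one] at h4
      omega
    · have h5 : ∑ j ∈ range (L + 1), (ν j * q + j) ≤ ∑ j ∈ range (L + 1), ν j * P j := by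
        refine sum_le_sum fun j hj => ?_
        rw [mem_range] at hj
        have h6 := hPge j hj
        calc ν j * q + j ≤ ν j * q + ν j * j := by
              have := Nat.mul_le_mul_right j (h2 j)
              omega
          _ = ν j * (q + j) := by ring
          _ ≤ ν j * P j := Nat.mul_le_mul_left _ h6
      rw [sum_add_distrib, ← sum_mul, ← hlen] at h5
      have e : L * (L + 1) = (L + 1) * L := mul_comm _ _
      omega
  set E : ℕ := ∑ j ∈ range (L + 1), (ν j - 1) with hE
  have hE1 : E + (L + 1) = ∑ j ∈ range (L + 1), ν j := by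
    have h4 : ∑ j ∈ range (L + 1), ((ν j - 1) + 1) = ∑ j ∈ range (L + 1), ν j := by
      refine sum_congr rfl fun j _ => ?_
      have := h2 j
      omega
    rw [← h4, sum_add_distrib, sum_const, card_range, smul_eq_mul, mul_one, hE]
  rcases Nat.eq_zero_or_pos E with hE0 | hE0
  · -- the strict case
    have h5 : ps.length - J = 0 := by omega
    rw [h5, pow_zero]
    have h6 := greedy _ _ hC
    rw [List.length_cons] at h6
    exact card_pos.2 h6
  have hClist : C G U 0 (blkL P ν (L + 1)) := by
    rw [← h1]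
    exact hC
  have hfin : ps.length + 2 = (∑ j ∈ range (L + 1), ν j) + 1 := by omega
  -- the last cap
  have hgapq : P L - P 0 ≤ ps.length ^ 2 := by
    have h5 : ∑ j ∈ range (L + 1), (ν j * q + (if j = L then P L - q else 0)) ≤
        ∑ j ∈ range (L + 1), ν j * P j := by
      refine sum_le_sum fun j hj => ?_
      rw [mem_range] at hj
      have h6 := hPge j hj
      split_ifs with h7
      · subst h7
        have h8 := h2 j
        calc ν j * q + (P j - q) ≤ ν j * q + ν j * (P j - q) := by
              have := Nat.mul_le_mul_right (P j - q) h8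
              omega
          _ = ν j * (q + (P j - q)) := by ring
          _ = ν j * P j := by rw [Nat.add_sub_cancel' (by omega)]
      · rw [add_zero]
        exact Nat.mul_le_mul_left _ (by omega)
    rw [sum_add_distrib, ← sum_mul, ← hlen, sum_ite_eq' (range (L + 1)) L,
      if_pos (mem_range.2 (by omega))] at h5
    rw [hP0]
    omega
  have hbuild : ∀ g, GapOk P ν L g →
      (P 0) ^ g ≤ (K G U ((∑ j ∈ range (L + 1), ν j) + 1)).card := by
    intro g hg
    refine buildQ (by omega) (fun j hj => h3 j (by omega)) h2 hClist g hg ?_ ?_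
    · rw [← hlen, hP0]
      exact hbig
    · rw [← hlen]
      have h5 : 101 * (ps.length + 1 + 1) ^ 2 * (P L - P 0) ≤
          101 * (ps.length + 1 + 1) ^ 2 * ps.length ^ 2 := Nat.mul_le_mul_left _ hgapq
      have h6 : 101 * (ps.length + 1 + 1) ^ 2 * ps.length ^ 2 ≤ 200 * (ps.length + 2) ^ 4 := by
        have h7 : ps.length ^ 2 ≤ (ps.length + 2) ^ 2 := Nat.pow_le_pow_left (by omega) 2
        calc 101 * (ps.length + 1 + 1) ^ 2 * ps.length ^ 2
            ≤ 101 * (ps.length + 2) ^ 2 * (ps.length + 2) ^ 2 := Nat.mul_le_mul le_rfl h7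
          _ = 101 * (ps.length + 2) ^ 4 := by ring
          _ ≤ _ := Nat.mul_le_mul_right _ (by norm_num)
      omega
  rcases Nat.eq_or_lt_of_le hNJ with hcase | hcase
  · -- as many levels as possible: no gaps up to the last repeated level
    have hgap : (∑ j ∈ range (L + 1), (ν j - 1) * (P j - P 0)) +
        ∑ j ∈ range (L + 1), (P j - P 0 - j) ≤ L := by
      have h5 : ∑ j ∈ range (L + 1), (ν j * q + j + (ν j - 1) * (P j - P 0) + (P j - P 0 - j)) =
          ∑ j ∈ range (L + 1), ν j * P j := by
        refine sum_congr rfl fun j hj => ?_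
        rw [mem_range] at hj
        have h6 := hPge j hj
        obtain ⟨u, hu⟩ : ∃ u, ν j = u + 1 := ⟨ν j - 1, by have := h2 j; omega⟩
        obtain ⟨x, hx⟩ : ∃ x, P j = q + j + x := ⟨P j - (q + j), by omega⟩
        rw [hP0, hu, hx, Nat.add_sub_cancel, show q + j + x - q = j + x by omega,
          show j + x - j = x by omega]
        ring
      rw [sum_add_distrib, sum_add_distrib, sum_add_distrib, ← sum_mul, ← hlen] at h5
      -- the maximality of `J`
      have h8 : m ≤ (J + 1) * (J + 2) / 2 + (ps.length + 1) * q := by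
        by_contra hcon
        push Not at hcon
        have h9 := hmax (J + 1) (by omega) hcon
        omega
      have e1 : (J + 1) * (J + 2) = (L + 1) * L + 2 * (L + 1) := by
        rw [← hcase]; ring
      have e2 : (J + 1) * (J + 2) / 2 = (∑ j ∈ range (L + 1), j) + (L + 1) := by
        rw [e1, ← hgauss]
        omega
      omega
    have h4 := hbuild E (Or.inl ⟨hgap, rfl⟩)
    rw [hP0] at h4
    rw [hfin]
    refine le_trans (Nat.pow_le_pow_right (by omega) ?_) h4
    omega
  · have h4 := hbuild (E - 1) (Or.inr (by omega))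
    rw [hP0] at h4
    rw [hfin]
    refine le_trans (Nat.pow_le_pow_right (by omega) ?_) h4
    omega

end MP76b19e.Reg
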