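import Pool.Agent.Lib.MP76b19e.Upper
import Pool.Agent.Lib.MP76b19e.CoreO
import Pool.Agent.Lib.MP76b19e.Reg.J

/-!
# The exact value for large orders (problem MP_76b19e_co)

`large_order`: the value of `m(n,k,r)` for all `n ≥ 200 (r + 1) ^ 5` and all `k`.
-/

set_option autoImplicit false

open Finset

noncomputable section

namespace MP76b19e.Reg

open Pool.Agent.MP76b19e

/-- `j` is the largest number `≤ r - 1` with `j (j + 1) / 2 ≤ n - r (n - k) - 1`. -/
def jval (n k r : ℕ) : ℕ :=
  Nat.findGreatest (fun j => j * (j + 1) / 2 + r * (n - k) < n) (r - 1)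

/-- The value of `m(n,k,r)`: it is `k` for `r = 1` and `(n - k) ^ (r - 1 - j)` for `r ≥ 2`. -/
def formula (n k r : ℕ) : ℕ :=
  if r = 1 then k else (n - k) ^ (r - 1 - jval n k r)

section
variable {n : ℕ}

theorem E1' {V : Type*} [DecidableEq V] {G : SimpleGraph V} : ∀ (ps : List ℕ) (p : ℕ)
    (U : Finset V), (p :: ps).Pairwise (· ≤ ·) → ¬ (p :: ps).Pairwise (· < ·) →
    C G U 0 (p :: ps) → p ≤ (K G U (ps.length + 2)).card := by
  intro ps
  induction ps with
  | nil => intro p U _ h; exact absurd (by simp) h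
  | cons p' ps ih =>
    intro p U hle hlt hC
    by_cases h : (p' :: ps).Pairwise (· < ·)
    · have hpp : p' = p := by
        rw [List.pairwise_cons] at hle hlt
        by_contra hne
        apply hlt
        refine ⟨?_, h⟩
        have h1 := hle.1 p' (by simp)
        intro x hx
        rcases List.mem_cons.1 hx with rfl | hx
        · omega
        · rw [List.pairwise_cons] at h
          have := h.1 x hx
          omega
      subst hpp
      exact E1 p' U ps h hC
    · obtain ⟨v, hv⟩ : (W G U p).Nonempty := by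
        simp only [C] at hC
        exact Finset.card_pos.1 (by omega)
      have hC2 : C G (nb G U v) 0 (p' :: ps) := by
        refine C_sub nb_subset (card_nb_of_W hv) (p' :: ps) 0 ?_
        simp only [C] at hC ⊢
        exact hC.2
      rw [List.pairwise_cons] at hle
      have h1 := ih p' (nb G U v) hle.2 h hC2
      have h2 := K_split (G := G) (mem_W.1 hv).1 (ps.length + 2)
      have h3 := hle.1 p' (by simp)
      rw [List.length_cons, show ps.length + 1 + 2 = ps.length + 2 + 1 by ring]
      omega

lemma strict_sum : ∀ (ps : List ℕ) (q : ℕ), (q :: ps).Pairwise (· < ·) →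
    2 * (ps.length + 1) * q + (ps.length + 1) * ps.length ≤ 2 * (q :: ps).sum := by
  intro ps
  induction ps with
  | nil => intro q _; simp
  | cons p ps ih =>
    intro q h
    rw [List.pairwise_cons] at h
    have h1 := ih p h.2
    have h2 : q + 1 ≤ p := h.1 p (by simp)
    rw [List.sum_cons, List.length_cons]
    have h3 : 2 * (ps.length + 1) * (q + 1) ≤ 2 * (ps.length + 1) * p :=
      Nat.mul_le_mul_left _ h2
    nlinarith

lemma le_sum : ∀ (ps : List ℕ) (q : ℕ), (∀ x ∈ ps, q ≤ x) → ps.length * q ≤ ps.sum := by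
  intro ps
  induction ps with
  | nil => intro q _; simp
  | cons p ps ih =>
    intro q h
    have h1 := ih q (fun x hx => h x (by simp [hx]))
    have h2 := h p (by simp)
    rw [List.sum_cons, List.length_cons]
    nlinarith

/-- structure of a non-majorizable graph -/
lemma structure_of {k r c : ℕ} (hr : 1 ≤ r) (hc : c ∈ counts n k r) :
    ∃ (G : SimpleGraph (Fin n)) (ps : List ℕ), cliqueCount G (r + 1) = c ∧
      (∃ v, deg G v = k) ∧ ps.length + 1 = r ∧ k < n ∧
      ((n - k) :: ps).Pairwise (· ≤ ·) ∧ C G univ 0 ((n - k) :: ps) := by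
  obtain ⟨G, ⟨⟨v, hv⟩, hmax⟩, hnon, hcc⟩ := hc
  have hit := extraction hr hnon
  obtain ⟨m, rfl⟩ : ∃ m, r = m + 1 := ⟨r - 1, by omega⟩
  have h1 := lst_C G (m + 1) 0 hit
  have h2 := lst_sorted G (m + 1) 0 hit
  have hn : 0 < n := by
    have := v.2
    omega
  have hself : ∀ w : Fin n, 1 ≤ (cn G univ w).card := fun w =>
    Finset.card_pos.2 ⟨w, self_mem_cn (Finset.mem_univ _)⟩
  have hkn : k < n := by
    have h3 := deg_add G v
    have h4 := hself v
    omega
  have hP : P G 0 = n - k := by
    apply le_antisymm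
    · apply P_le
      refine Finset.card_pos.2 ⟨v, mem_W.2 ⟨Finset.mem_univ _, ?_⟩⟩
      have h3 := deg_add G v
      omega
    · have h3 := P_spec G hn
      obtain ⟨w, hw⟩ := Finset.card_pos.1 h3
      have h4 := (mem_W.1 hw).2
      have h5 := deg_add G w
      have h6 : deg G w ≤ k := hmax ⟨w, rfl⟩
      omega
  refine ⟨G, lst G (0 + P G 0) m, hcc, ⟨v, hv⟩, by rw [lst_length], hkn, ?_, ?_⟩
  · rw [← hP]
    exact h2
  · rw [← hP]
    exact h1

lemma jval_le (n k r : ℕ) : jval n k r ≤ r - 1 := Nat.findGreatest_le _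

lemma jval_spec {n k r : ℕ} (h : r * (n - k) < n) :
    jval n k r * (jval n k r + 1) / 2 + r * (n - k) < n :=
  Nat.findGreatest_spec (P := fun j => j * (j + 1) / 2 + r * (n - k) < n) (m := 0) (Nat.zero_le _)
    (by simpa using h)

lemma le_jval {n k r j : ℕ} (hj : j ≤ r - 1) (h : j * (j + 1) / 2 + r * (n - k) < n) :
    j ≤ jval n k r :=
  Nat.le_findGreatest hj h

lemma lower_of_large {k r c : ℕ} (hr : 1 ≤ r)
    (hcond : 200 * (r + 1) ^ 4 ≤ n - k ∨ (r - 1) * (r - 2) / 2 + r * (n - k) < n)
    (hc : c ∈ counts n k r) : formula n k r ≤ c := by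
  obtain ⟨G, ps, hcc, ⟨v, hv⟩, hlen, hkn, hle, hC⟩ := structure_of hr hc
  have hsum := C_sum _ _ hC
  simp only [zero_add, Finset.card_univ, Fintype.card_fin] at hsum
  rw [cliqueCount_eq] at hcc
  rcases Nat.eq_or_lt_of_le hr with h1 | hr2
  · -- r = 1
    subst h1
    unfold formula
    rw [if_pos rfl, ← hcc, ← hv, deg_eq]
    refine Finset.card_le_card_of_injOn (fun z => ({z, v} : Finset (Fin n))) ?_ ?_
    · intro z hz
      exact pair_mem_K (Finset.mem_univ _) (Finset.mem_univ _) (mem_nb.1 hz).2
    · intro z hz z' _ h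
      have hz1 := mem_nb.1 hz
      have h2 : z ∈ ({z', v} : Finset (Fin n)) := by
        simp only at h
        rw [← h]; simp
      simp only [Finset.mem_insert, Finset.mem_singleton] at h2
      rcases h2 with h2 | h2
      · exact h2
      · exact absurd h2 hz1.2.ne'
  have hr1 : r ≠ 1 := by omega
  unfold formula
  rw [if_neg hr1]
  set q := n - k with hq
  have hq1 : 1 ≤ q := by omega
  have hone : 1 ≤ c := by
    rw [← hcc, ← hlen]
    exact Finset.card_pos.2 (greedy _ _ hC)
  by_cases h3 : (r - 1) * (r - 2) / 2 + r * q < n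
  · have h4 : r - 2 ≤ jval n k r := by
      apply le_jval (by omega)
      obtain ⟨m, rfl⟩ : ∃ m, r = m + 2 := ⟨r - 2, by omega⟩
      have h5 : m + 2 - 1 = m + 1 := by omega
      rw [Nat.add_sub_cancel]
      rw [h5, Nat.add_sub_cancel, mul_comm (m + 1) m] at h3
      exact h3
    by_cases hstrict : (q :: ps).Pairwise (· < ·)
    · -- strict: the exponent is zero
      have h2 := strict_sum ps q hstrict
      have h3 : r - 1 ≤ jval n k r := by
        apply le_jval le_rfl
        obtain ⟨m, rfl⟩ : ∃ m, r = m + 1 := ⟨r - 1, by omega⟩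
        have h4 : ps.length = m := by omega
        rw [h4] at h2
        rw [Nat.add_sub_cancel]
        have h5 : 2 * ((m + 1) * q) + m * (m + 1) ≤ 2 * (q :: ps).sum := by
          calc 2 * ((m + 1) * q) + m * (m + 1) = 2 * (m + 1) * q + (m + 1) * m := by ring
            _ ≤ _ := h2
        have h6 := Nat.div_mul_le_self (m * (m + 1)) 2
        rw [← hq]
        omega
      have h4 : r - 1 - jval n k r = 0 := by omega
      rw [h4, pow_zero]
      exact hone
    · have hqc : q ≤ c := by
        have := E1' ps q univ hle hstrict hC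
        have h3 : ps.length + 2 = r + 1 := by omega
        rw [h3, hcc] at this
        exact this
      have h5 : q ^ (r - 1 - jval n k r) ≤ q ^ 1 := Nat.pow_le_pow_right hq1 (by omega)
      rw [pow_one] at h5
      omega
  · have h4 : 200 * (r + 1) ^ 4 ≤ q := by
      rcases hcond with h4 | h4
      · exact h4
      · exact absurd h4 h3
    have h5 : (r - 1) * (r - 2) / 2 ≤ ps.length ^ 2 + 1 := by
      have h6 : (r - 1) * (r - 2) ≤ ps.length * ps.length :=
        Nat.mul_le_mul (by omega) (by omega)
      have h7 : (r - 1) * (r - 2) / 2 ≤ (r - 1) * (r - 2) := Nat.div_le_self _ _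
      nlinarith
    have h6 := listBoundQ G univ q ps (by
        have h7 : 1 ≤ (r + 1) ^ 4 := Nat.one_le_pow _ _ (by omega)
        omega) hle hC n (jval n k r) hsum (by
        have := jval_le n k r
        omega) (by
        intro j hj hjn
        refine le_jval (by omega) ?_
        rw [hlen] at hjn
        exact hjn) (by
        rw [show ps.length + 2 = r + 1 by omega]
        exact h4) (by
        rw [hlen]
        omega)
    have h7 : ps.length + 2 = r + 1 := by omega
    have h8 : ps.length - jval n k r = r - 1 - jval n k r := by omega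
    rw [h7, hcc, h8] at h6
    exact h6

/-- the list used in the construction -/
def pp (q m j e : ℕ) (i : ℕ) : ℕ := q + (i - m) + (if i = m + j then e else 0)

lemma sum_pp (q m j e : ℕ) :
    ss (pp q m j e) (m + j + 1) = (m + j + 1) * q + j * (j + 1) / 2 + e := by
  unfold ss pp
  rw [Finset.sum_add_distrib, Finset.sum_add_distrib, Finset.sum_const, Finset.card_range,
    smul_eq_mul, Finset.sum_ite_eq']
  simp only [Finset.mem_range, Nat.lt_succ_self, if_true]
  congr 2
  have h1 : ∑ i ∈ range (m + (j + 1)), (i - m) = ∑ i ∈ range m, (i - m) +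
      ∑ i ∈ range (j + 1), (m + i - m) := Finset.sum_range_add _ _ _
  have h2 : ∑ i ∈ range m, (i - m) = 0 := by
    apply Finset.sum_eq_zero
    intro i hi
    rw [Finset.mem_range] at hi
    omega
  have h3 : ∑ i ∈ range (j + 1), (m + i - m) = ∑ i ∈ range (j + 1), i := by
    apply Finset.sum_congr rfl
    intro i _
    omega
  rw [show m + j + 1 = m + (j + 1) by ring, h1, h2, h3, zero_add, Finset.sum_range_id]
  congr 1
  rw [Nat.add_sub_cancel, mul_comm]

lemma upper {k r : ℕ} (hr : 2 ≤ r) (hkn : k < n) (hrn : r * (n - k) < n) :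
    ∃ c ∈ counts n k r, c ≤ formula n k r := by
  classical
  set q := n - k with hq
  have hq1 : 1 ≤ q := by omega
  set j := jval n k r with hj
  have hjle : j ≤ r - 1 := jval_le n k r
  have hspec : j * (j + 1) / 2 + r * q < n := jval_spec hrn
  obtain ⟨m, hm⟩ : ∃ m, r = m + j + 1 := ⟨r - 1 - j, by omega⟩
  obtain ⟨e, he⟩ : ∃ e, n = j * (j + 1) / 2 + r * q + 1 + e := Nat.exists_eq_add_of_lt hspec |>.imp
    (fun e h => by omega)
  set p := pp q m j e with hp
  have hn : n = ss p r + 1 := by
    rw [hm, hp, sum_pp, ← hm]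
    omega
  have hmono : ∀ i, i + 1 < r → p i ≤ p (i + 1) := by
    intro i hi
    rw [hp]
    unfold pp
    rw [if_neg (by omega)]
    omega
  have hpos : ∀ i, i < r → 1 ≤ p i := by
    intro i _
    rw [hp]
    unfold pp
    omega
  have hp0 : p 0 = q := by
    rw [hp]
    unfold pp
    rw [if_neg (by omega)]
    omega
  refine ⟨cliqueCount (GG n r p) (r + 1), ⟨GG n r p, ?_, ?_, rfl⟩, ?_⟩
  · have h1 := GG_deg (by omega) hn hmono hpos
    rw [hp0] at h1
    have h2 : n - q = k := by omega
    rw [h2] at h1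
    exact h1
  · exact cert (List.map p (List.range r)) (by simp) (GG_C hn hmono hpos)
  · rw [cliqueCount_eq]
    refine (GG_cliques hn).trans ?_
    unfold formula
    rw [if_neg (by omega)]
    have h1 : ∀ i ∈ range r, (if i + 1 < r ∧ p i = p (i + 1) then p i else 1) ≤
        (if i < m then q else 1) := by
      intro i hi
      rw [Finset.mem_range] at hi
      by_cases him : i < m
      · rw [if_pos him]
        split_ifs with h
        · rw [hp]
          unfold pp
          rw [if_neg (by omega)]
          omega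
        · exact hq1
      · rw [if_neg him, if_neg]
        rintro ⟨h2, h3⟩
        rw [hp] at h3
        unfold pp at h3
        rw [if_neg (show ¬ i = m + j by omega)] at h3
        omega
    refine (Finset.prod_le_prod' h1).trans ?_
    rw [← hq, ← hj]
    have h2 : r - 1 - j = m := by omega
    rw [h2, hm, show m + j + 1 = m + (j + 1) by ring, Finset.prod_range_add]
    have h3 : ∏ i ∈ range m, (if i < m then q else 1) = q ^ m := by
      rw [Finset.prod_congr rfl (g := fun _ => q)]
      · simp
      · intro i hi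
        rw [Finset.mem_range] at hi
        rw [if_pos hi]
    have h4 : ∏ i ∈ range (j + 1), (if m + i < m then q else 1) = 1 := by
      apply Finset.prod_eq_one
      intro i _
      rw [if_neg (by omega)]
    rw [h3, h4, mul_one]

/-- a star with `k` leaves -/
def star (n k : ℕ) : SimpleGraph (Fin n) where
  Adj u v := ((u : ℕ) = 0 ∧ 1 ≤ (v : ℕ) ∧ (v : ℕ) ≤ k) ∨ ((v : ℕ) = 0 ∧ 1 ≤ (u : ℕ) ∧ (u : ℕ) ≤ k)
  symm := ⟨by
    intro u v h
    rcases h with h | h
    · exact Or.inr h
    · exact Or.inl h⟩
  loopless := ⟨by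
    intro u h
    rcases h with h | h <;> omega⟩

lemma star_mem {k : ℕ} (hk1 : 1 ≤ k) (hkn : k < n) : ∃ c ∈ counts n k 1, c ≤ k := by
  classical
  have hadj : ∀ u v : Fin n, (star n k).Adj u v ↔ ((u : ℕ) = 0 ∧ 1 ≤ (v : ℕ) ∧ (v : ℕ) ≤ k) ∨
      ((v : ℕ) = 0 ∧ 1 ≤ (u : ℕ) ∧ (u : ℕ) ≤ k) := fun u v => Iff.rfl
  have hn0 : 0 < n := by omega
  set o : Fin n := ⟨0, hn0⟩ with ho
  have hnb : nb (star n k) univ o = univ.filter (fun u : Fin n => 1 ≤ (u : ℕ) ∧
      (u : ℕ) < k + 1) := by
    ext u
    rw [mem_nb, hadj, Finset.mem_filter]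
    have : (o : ℕ) = 0 := rfl
    simp only [Finset.mem_univ, true_and, this]
    omega
  have hdeg0 : deg (star n k) o = k := by
    rw [deg_eq, hnb, card_interval (by omega)]
    omega
  have hle : ∀ v : Fin n, deg (star n k) v ≤ k := by
    intro v
    by_cases hv : (v : ℕ) = 0
    · have : v = o := Fin.ext hv
      rw [this, hdeg0]
    · have h1 : nb (star n k) univ v ⊆ {o} := by
        intro u hu
        have hu' := (mem_nb.1 hu).2
        rw [hadj] at hu'
        rw [Finset.mem_singleton]
        apply Fin.ext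
        simp only [ho]
        omega
      have h2 := Finset.card_le_card h1
      rw [deg_eq]
      simp only [Finset.card_singleton] at h2
      omega
  refine ⟨cliqueCount (star n k) (1 + 1), ⟨star n k, ⟨⟨o, hdeg0⟩, ?_⟩, ?_, rfl⟩, ?_⟩
  · rintro d ⟨v, rfl⟩
    exact hle v
  · refine cert [n - k] rfl ?_
    simp only [C]
    have h1 := deg_add (star n k) o
    refine ⟨?_, ?_⟩
    · refine Finset.card_pos.2 ⟨o, mem_W.2 ⟨Finset.mem_univ _, ?_⟩⟩
      omega
    · simp only [Finset.card_univ, Fintype.card_fin]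
      omega
  · rw [cliqueCount_eq]
    have h1 : K (star n k) univ (1 + 1) ⊆
        (nb (star n k) univ o).image (fun z => ({z, o} : Finset (Fin n))) := by
      intro s hs
      have hs' := mem_K.1 hs
      obtain ⟨a, b, hab, rfl⟩ := Finset.card_eq_two.1 hs'.2.1
      have h2 := hs'.2.2 (show a ∈ ((({a, b} : Finset (Fin n))) : Set (Fin n)) by simp)
        (show b ∈ ((({a, b} : Finset (Fin n))) : Set (Fin n)) by simp) hab
      have h3 := h2
      rw [hadj] at h3
      rcases h3 with h3 | h3
      · have ha : a = o := Fin.ext h3.1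
        subst ha
        refine Finset.mem_image.2 ⟨b, mem_nb.2 ⟨Finset.mem_univ _, h2⟩, ?_⟩
        simp only [Finset.pair_comm]
      · have hb : b = o := Fin.ext h3.1
        subst hb
        exact Finset.mem_image.2 ⟨a, mem_nb.2 ⟨Finset.mem_univ _, h2.symm⟩, rfl⟩
    refine (Finset.card_le_card h1).trans (Finset.card_image_le.trans ?_)
    rw [← deg_eq, hdeg0]

lemma upper' {k r : ℕ} (hr : 1 ≤ r) (hkn : k < n) (hrn : r * (n - k) < n) :
    ∃ c ∈ counts n k r, c ≤ formula n k r := by
  rcases Nat.eq_or_lt_of_le hr with h1 | hr2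
  · subst h1
    have h2 := star_mem (n := n) (k := k) (by omega) hkn
    unfold formula
    rw [if_pos rfl]
    exact h2
  · exact upper hr2 hkn hrn

end

/-- The value of `m(n,k,r)` for all `n` which are large compared with `r`, and all `k`. -/
theorem large_order (n k r : ℕ) (hr : 1 ≤ r) (hn : 200 * (r + 1) ^ 5 ≤ n) :
    ((counts n k r).Nonempty ↔ k < n ∧ r * (n - k) < n) ∧
    (k < n → r * (n - k) < n → IsLeast (counts n k r) (formula n k r)) := by
  refine ⟨⟨?_, ?_⟩, ?_⟩
  · rintro ⟨c, hc⟩
    obtain ⟨G, ps, -, -, hlen, hkn, hle, hC⟩ := structure_of hr hc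
    refine ⟨hkn, ?_⟩
    have hsum := C_sum _ _ hC
    simp only [zero_add, Finset.card_univ, Fintype.card_fin] at hsum
    rw [List.pairwise_cons] at hle
    have hsum2 := le_sum ((n - k) :: ps) (n - k) (by
      intro x hx
      rcases List.mem_cons.1 hx with rfl | hx
      · exact le_rfl
      · exact hle.1 x hx)
    rw [List.length_cons, hlen] at hsum2
    omega
  · rintro ⟨h1, h2⟩
    obtain ⟨c, hc, -⟩ := upper' hr h1 h2
    exact ⟨c, hc⟩
  · intro h1 h2
    obtain ⟨c, hc, hcle⟩ := upper' hr h1 h2
    have hcond : 200 * (r + 1) ^ 4 ≤ n - k ∨ (r - 1) * (r - 2) / 2 + r * (n - k) < n := by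
      by_contra hcon
      push Not at hcon
      obtain ⟨h3, h4⟩ := hcon
      have h5 : (r - 1) * (r - 2) / 2 ≤ r * r := by
        have h6 : (r - 1) * (r - 2) ≤ r * r := Nat.mul_le_mul (by omega) (by omega)
        exact (Nat.div_le_self _ _).trans h6
      have h6 : r * (n - k) + r ≤ r * (200 * (r + 1) ^ 4) := by
        calc r * (n - k) + r = r * (n - k + 1) := by ring
          _ ≤ _ := Nat.mul_le_mul_left _ h3
      have h7 : 200 * (r + 1) ^ 5 = r * (200 * (r + 1) ^ 4) + 200 * (r + 1) ^ 4 := by ring
      have h8 : r * r ≤ (r + 1) ^ 4 := by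
        calc r * r ≤ (r + 1) * (r + 1) := Nat.mul_le_mul (by omega) (by omega)
          _ = (r + 1) ^ 2 := by ring
          _ ≤ (r + 1) ^ 4 := Nat.pow_le_pow_right (by omega) (by norm_num)
      have h9 : 0 < (r + 1) ^ 4 := by positivity
      omega
    have hlow : ∀ c ∈ counts n k r, formula n k r ≤ c := fun c hc => lower_of_large hr hcond hc
    refine ⟨?_, hlow⟩
    have h3 := hlow c hc
    have h4 : c = formula n k r := le_antisymm hcle h3
    rw [← h4]
    exact hc

end MP76b19e.Reg
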