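import Pool.Agent.Lib.MP76b19e.Reg.F

/-!
# The inequality for a set with `k + 1` elements: conclusion (problem MP_76b19e_co)
-/

set_option autoImplicit false

open Finset

namespace MP76b19e.Reg

open MP76b19e.Rob

variable {V : Type} [DecidableEq V] {K : Finset V} {lev : V → ℕ} {l : ℕ} {P ν : ℕ → ℕ} {w : ℕ}
  {N : Finset V → ℕ} {C : ℕ → ℕ} {m : Finset V → ℝ} {b : V → ℝ} {u v : V}

/-- the masses are integers -/
theorem KD.pal_nat (h : KD K lev l P ν w N C m b) (hu : u ∈ K) :
    ∃ a : ℕ, 1 ≤ a ∧ Rob.pal m {u} = a := by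
  have h1 : N (K.erase u) + 1 ≤ w := (h.N_erase_lt hu).trans h.NK
  refine ⟨w - N (K.erase u), by omega, ?_⟩
  rw [h.pal_one hu, Nat.cast_sub (by omega)]

/-- the second mass is at least the sum of the two first -/
theorem KD.pal_add (h : KD K lev l P ν w N C m b) (huv : u ≠ v) (hw : N K = w) :
    Rob.pal m {u} + Rob.pal m {v} ≤ Rob.pal m {u, v} := by
  have hm0 : m ∅ = 0 := by
    have h1 := h.pal ∅ (empty_subset _)
    rw [sdiff_empty, hw, sub_self] at h1
    unfold Rob.pal at h1
    rw [powerset_empty, sum_singleton] at h1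
    exact h1
  have hs : ∀ x : V, Rob.pal m {x} = m {x} := by
    intro x
    have h2 : ({x} : Finset V).powerset = {∅, {x}} := by
      ext s
      rw [mem_powerset, subset_singleton_iff, mem_insert, mem_singleton]
    unfold Rob.pal
    rw [h2, sum_pair (singleton_nonempty x).ne_empty.symm, hm0, zero_add]
  rw [hs, hs]
  have h3 : ({({u} : Finset V), {v}} : Finset (Finset V)) ⊆ ({u, v} : Finset V).powerset := by
    intro s hs'
    rw [mem_insert, mem_singleton] at hs'
    rw [mem_powerset]
    rcases hs' with rfl | rfl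
    · exact singleton_subset_iff.2 (mem_insert_self _ _)
    · exact singleton_subset_iff.2 (mem_insert_of_mem (mem_singleton_self _))
  have h4 : ∑ D ∈ ({({u} : Finset V), {v}} : Finset (Finset V)), m D ≤ Rob.pal m {u, v} := by
    unfold Rob.pal
    exact sum_le_sum_of_subset_of_nonneg h3 fun D _ _ => h.pos.1 D
  rwa [sum_pair (by
    intro h5
    exact huv (singleton_injective h5))] at h4

omit [DecidableEq V] in
/-- the excess at a level is an integer -/
theorem md_int (A : Finset V) (lev : V → ℕ) (ν : ℕ → ℕ) (j : ℕ) : ∃ z : ℤ, md A lev ν j = z := by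
  refine ⟨((A.filter fun x => lev x ≤ j).card : ℤ) - Nn ν j, ?_⟩
  unfold md
  push_cast
  rfl

/-- a critical pair, if `K` dominates all vertices: bound for one value of the statistic and of the
integral -/
theorem KD.crit (h : KD K lev l P ν w N C m b) (hu : u ∈ K) (hv : v ∈ K) (huv : u ≠ v)
    (hq : 200 * (K.card : ℝ) ^ 4 ≤ P 0)
    (hq' : 101 * (K.card : ℝ) ^ 2 * ((P (l + 1) : ℝ) - P 0) ≤ P 0) (hν : ν (l + 1) ≤ 2)
    (hR2 : rn P ν C (l + 1) ≤ 201 / 100)
    (hw : N K = w)
    (hNu : (N {u} : ℝ) ≤ 25 * (K.card : ℝ) ^ 2 + 30 * (K.card : ℝ) ^ 4)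
    (hNv : (N {v} : ℝ) ≤ 25 * (K.card : ℝ) ^ 2 + 30 * (K.card : ℝ) ^ 4) :
    rn P ν C (l + 1) * (101 / 100 * (Ival m {u, v} + 1 / 1350)) ≤
        1 + ∑ x ∈ K, b x / Rob.pal m {x} ∨
      (P 0 : ℝ) ^ (∑ j ∈ range (l + 2), (ν j - 1)) * (∏ j ∈ range (l + 1), (P j : ℝ)) *
        (rn P ν C (l + 1) * Ival m K) ≤ 1 := by
  have hn := h.card_three
  have hR0 := rn_nonneg P ν C (l + 1)
  obtain ⟨a, ha, hpa⟩ := h.pal_nat hu
  obtain ⟨a', ha', hpa'⟩ := h.pal_nat hv
  have hz := h.pal_add huv hw
  have hS0 := h.S_nonneg
  have hS := h.S_ge hu hv huv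
  have hF := Ival_pair m huv
  rw [hpa, hpa'] at hz hS hF
  have haR : (1 : ℝ) ≤ a := by exact_mod_cast ha
  have haR' : (1 : ℝ) ≤ a' := by exact_mod_cast ha'
  have hF1 : Ival m {u, v} ≤ 1 / (a * a') := by
    rw [hF, div_le_div_iff₀ (by linarith) (by positivity), one_mul, add_mul]
    have e1 : 1 / (a : ℝ) * (a * a') = a' := by field_simp
    have e2 : 1 / (a' : ℝ) * (a * a') = a := by field_simp
    rw [e1, e2]
    linarith
  have hF0 : 0 ≤ Ival m {u, v} := (Ival_pos h.pos _).le
  have hFone : Ival m {u, v} ≤ 1 := h.Ival_pair_le_one hu hv huv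
  -- the product is at least three
  by_cases h3 : 3 ≤ a * a'
  · left
    have h4 : (3 : ℝ) ≤ (a : ℝ) * a' := by exact_mod_cast h3
    have h5 : Ival m {u, v} ≤ 1 / 3 := hF1.trans (one_div_le_one_div_of_le (by norm_num) h4)
    nlinarith
  -- some level is not filled
  by_cases hneg : ∃ j, j ≤ l ∧ md ((K.erase u).erase v) lev ν j < 0
  · left
    classical
    set j := Nat.find hneg with hj
    have hj1 := Nat.find_spec hneg
    rw [← hj] at hj1
    have hj2 : ∀ i < j, 0 ≤ md ((K.erase u).erase v) lev ν i := by
      intro i hi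
      have h4 := Nat.find_min hneg hi
      by_contra hcon
      push Not at hcon
      exact h4 ⟨by omega, hcon⟩
    have h5 := h.bn_low hq hq' hw hNu hNv hj1.1 hj2
    obtain ⟨z, hzz⟩ := md_int ((K.erase u).erase v) lev ν j
    have h6 : md ((K.erase u).erase v) lev ν j ≤ -1 := by
      have h7 := hj1.2
      rw [hzz] at h7 ⊢
      have h8 : z < 0 := by exact_mod_cast h7
      have h9 : z ≤ -1 := by omega
      exact_mod_cast h9
    have h7 : bn P ν C j ≤ 33 / 100 := by linarith
    have hR : rn P ν C (l + 1) ≤ 67 / 100 := by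
      have h8 := h.bn_top hq' hν
      have h9 : ((P (l + 1) : ℝ) - P 0 + 1 + K.card) / P 0 ≤ 1 / 100 := by
        have hq0 : (1 : ℝ) ≤ P 0 := by exact_mod_cast h.q1
        rw [div_le_iff₀ (by linarith)]
        have h10 := h.P_lt
        set n : ℝ := (K.card : ℝ)
        have h11 : (9 : ℝ) ≤ n ^ 2 := by nlinarith
        have h12 : n ^ 4 = n ^ 2 * n ^ 2 := by ring
        nlinarith
      rcases Nat.lt_or_ge j l with h10 | h10
      · have h11 := rn_le_factor (A := 201 / 100) (B := 33 / 100) (by norm_num) (by norm_num)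
          (by linarith) h10 h7
        linarith
      · have h11 : j = l := by omega
        rw [h11] at h7
        have h12 := rn_le_last (by norm_num) h7
        linarith
    nlinarith
  push Not at hneg
  -- the excess
  set E : ℝ := ∑ i ∈ range (l + 1), md ((K.erase u).erase v) lev ν i *
      ((P (i + 1) : ℝ) - P i) with hE
  have hPstep : ∀ i, (1 : ℝ) ≤ (P (i + 1) : ℝ) - P i := by
    intro i
    have : ((P i + 1 : ℕ) : ℝ) ≤ (P (i + 1) : ℝ) := by exact_mod_cast h.Pmono i
    push_cast at this
    linarith
  have hEt : ∀ i ∈ range (l + 1), 0 ≤ md ((K.erase u).erase v) lev ν i *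
      ((P (i + 1) : ℝ) - P i) := by
    intro i hi
    have hi' := mem_range.1 hi
    exact mul_nonneg (hneg i (by omega)) (by linarith [hPstep i])
  have hEi : ∀ i ≤ l, md ((K.erase u).erase v) lev ν i ≤ E := by
    intro i hi
    have h4 := single_le_sum hEt (mem_range.2 (show i < l + 1 by omega))
    have h5 : md ((K.erase u).erase v) lev ν i ≤ md ((K.erase u).erase v) lev ν i *
        ((P (i + 1) : ℝ) - P i) := le_mul_of_one_le_right (hneg i hi) (hPstep i)
    linarith
  have hDe := h.De_eq hu hv huv
  rw [← hE] at hDe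
  have hE0 : 0 ≤ E := sum_nonneg hEt
  have hbu := h.b_ge hu hv huv
  have hbv := h.b_ge hv hu huv.symm
  rw [De_comm, Oo_comm] at hbv
  rw [hpa] at hbu
  rw [hpa'] at hbv
  have hov := h.ov_nonneg hv huv
  have hov' := h.ov_nonneg hu huv.symm
  have hOo := h.Oo_nonneg (u := u) (v := v)
  have hPu : (P (lev u) : ℝ) ≤ P (l + 1) := by exact_mod_cast h.P_le (h.lev_le u hu)
  have hPv : (P (lev v) : ℝ) ≤ P (l + 1) := by exact_mod_cast h.P_le (h.lev_le v hv)
  have hb := h.bn_low hq hq' hw hNu hNv le_rfl (fun i hi => hneg i hi.le)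
  have hbu0 := h.b0 u hu
  have hbv0 := h.b0 v hv
  have hSu0 : 0 ≤ b u / a := div_nonneg hbu0 (by linarith)
  have hSv0 : 0 ≤ b v / a' := div_nonneg hbv0 (by linarith)
  -- the top excess
  have htop : md ((K.erase u).erase v) lev ν l ≤ 1 := by
    have h4 : (((K.erase u).erase v).filter fun x => lev x ≤ l).card ≤
        ((K.erase u).erase v).card := card_filter_le _ _
    have h5 := card_pair hu hv huv
    have h6 := h.card
    rw [Nn_succ] at h6
    have h7 : (K.card : ℝ) = (Nn ν l : ℝ) + ν (l + 1) + 1 := by exact_mod_cast h6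
    have h8 : (ν (l + 1) : ℝ) ≤ 2 := by exact_mod_cast hν
    have h9 : ((((K.erase u).erase v).filter fun x => lev x ≤ l).card : ℝ) ≤
        (((K.erase u).erase v).card : ℝ) := by exact_mod_cast h4
    unfold md
    linarith
  obtain ⟨z, hzz⟩ := md_int ((K.erase u).erase v) lev ν l
  have hz01 : z = 0 ∨ z = 1 := by
    have h4 := hneg l le_rfl
    rw [hzz] at h4 htop
    have h5 : 0 ≤ z := by exact_mod_cast h4
    have h6 : z ≤ 1 := by exact_mod_cast htop
    omega
  -- the masses are one, or one and two
  have haa : a = 1 ∨ a = 2 := by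
    have h4 : a ≤ a * a' := Nat.le_mul_of_pos_right a (by omega)
    omega
  have haa' : a' = 1 ∨ a' = 2 := by
    have h4 : a' ≤ a * a' := Nat.le_mul_of_pos_left a' (by omega)
    omega
  rcases hz01 with hz0 | hz1
  · -- no excess at the top
    rw [hzz, hz0] at hb
    have hR : rn P ν C (l + 1) ≤ 133 / 100 :=
      rn_le_last (by norm_num) (by push_cast at hb; linarith)
    by_cases h11 : a = 1 ∧ a' = 1
    · obtain ⟨rfl, rfl⟩ := h11
      norm_num at hz hbu hbv hS hF hSu0 hSv0
      -- the second mass
      obtain ⟨y, hy⟩ : ∃ y : ℕ, Rob.pal m {u, v} = y := by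
        have h1 : N ((K.erase u).erase v) ≤ w :=
          (h.Nmono _ _ ((erase_subset _ _).trans (erase_subset _ _))).trans h.NK
        refine ⟨w - N ((K.erase u).erase v), ?_⟩
        rw [h.pal_two hu hv, Nat.cast_sub h1]
      rw [hy] at hz hF
      have hy2 : 2 ≤ y := by exact_mod_cast hz
      rcases Nat.eq_or_lt_of_le hy2 with hy3 | hy3
      · -- the tight case or a large clique
        by_cases hX : 2 ≤ ((P (l + 1) : ℝ) - P (lev v)) + ov K N u v + Oo K N u v +
            De K lev P w u v
        · left
          have h4 : 1 ≤ b u := by linarith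
          nlinarith
        · by_cases hX' : 2 ≤ ((P (l + 1) : ℝ) - P (lev u)) + ov K N v u + Oo K N u v +
              De K lev P w u v
          · left
            have h4 : 1 ≤ b v := by linarith
            nlinarith
          · right
            push Not at hX hX'
            -- both are integers
            have hint : ∀ x y' : V, ∃ z : ℤ, ((P (l + 1) : ℝ) - P (lev y')) + ov K N x y' +
                Oo K N u v + De K lev P w u v = z := by
              intro x y'
              refine ⟨((P (l + 1) : ℤ) - P (lev y')) + ((N {y'} : ℤ) - ((N (K.erase x) : ℤ) -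
                N ((K.erase x).erase y'))) + (∑ x ∈ (K.erase u).erase v, (N {x} : ℤ) -
                N ((K.erase u).erase v)) + ((w : ℤ) -
                ∑ x ∈ (K.erase u).erase v, (P (lev x) : ℤ)), ?_⟩
              unfold ov Oo De
              push_cast
              ring
            obtain ⟨z1, hz1⟩ := hint u v
            obtain ⟨z2, hz2⟩ := hint v u
            have hz1' : z1 < 2 := by
              rw [hz1] at hX
              exact_mod_cast hX
            have hz2' : z2 < 2 := by
              rw [hz2] at hX'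
              exact_mod_cast hX'
            have hz1'' : (z1 : ℝ) ≤ 1 := by exact_mod_cast (show z1 ≤ 1 by omega)
            have hz2'' : (z2 : ℝ) ≤ 1 := by exact_mod_cast (show z2 ≤ 1 by omega)
            have g1 : (P (lev v) : ℝ) = P (l + 1) := by linarith
            have g2 : (P (lev u) : ℝ) = P (l + 1) := by linarith
            have g3 : ov K N u v = 0 := by linarith
            have g4 : ov K N v u = 0 := by linarith
            have g5 : Oo K N u v = 0 := by linarith
            have g6 : E = 0 := by linarith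
            have hlev : ∀ x ∈ K, (P (lev x) : ℝ) = P (l + 1) → lev x = l + 1 := by
              intro x hx h4
              by_contra hcon
              have h5 := h.lev_le x hx
              have h6 : P (lev x) + 1 ≤ P (lev x + 1) := h.Pmono _
              have h7 : P (lev x + 1) ≤ P (l + 1) := h.P_le (by omega)
              have h8 : P (lev x) = P (l + 1) := by exact_mod_cast h4
              omega
            refine h.tight hu hv huv hw (hlev u hu g2) (hlev v hv g1) (by rw [hpa]; norm_num)
              (by rw [hpa']; norm_num) (by rw [hy, ← hy3]; norm_num) g3 g4 g5 ?_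
            intro i hi
            have h4 := hEi i hi
            have h5 := hneg i hi
            linarith
      · left
        have hy4 : (3 : ℝ) ≤ y := by exact_mod_cast hy3
        have h4 : Ival m {u, v} ≤ 2 / 3 := by
          rw [hF]
          exact div_le_div_of_nonneg_left (by norm_num) (by norm_num) hy4
        nlinarith
    · left
      have h4 : 2 ≤ a * a' := by
        rcases haa with rfl | rfl <;> rcases haa' with rfl | rfl <;> omega
      have h5 : (2 : ℝ) ≤ (a : ℝ) * a' := by exact_mod_cast h4
      have h6 : Ival m {u, v} ≤ 1 / 2 := hF1.trans (one_div_le_one_div_of_le (by norm_num) h5)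
      nlinarith
  · -- an excess at the top
    left
    have h1E : 1 ≤ E := by
      have h4 := hEi l le_rfl
      rw [hzz, hz1] at h4
      push_cast at h4
      exact h4
    rcases haa with rfl | rfl
    · have hbu1 : 1 ≤ b u := by
        push_cast at hbu
        linarith
      rcases haa' with rfl | rfl
      · have hbv1 : 1 ≤ b v := by
          push_cast at hbv
          linarith
        norm_num at hS
        nlinarith
      · have h6 : Ival m {u, v} ≤ 1 / 2 := by
          refine hF1.trans (le_of_eq ?_)
          norm_num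
        norm_num at hS hSv0
        nlinarith
    · rcases haa' with rfl | rfl
      · have hbv1 : 1 ≤ b v := by
          push_cast at hbv
          linarith
        have h6 : Ival m {u, v} ≤ 1 / 2 := by
          refine hF1.trans (le_of_eq ?_)
          norm_num
        norm_num at hS hSu0
        nlinarith
      · omega

end MP76b19e.Reg
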