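import Pool.Agent.Lib.MP76b19e.Reg.G

/-!
# The inequality for a set with `k + 1` elements: the theorem (problem MP_76b19e_co)
-/

set_option autoImplicit false

open Finset

namespace MP76b19e.Reg

open MP76b19e.Rob

variable {V : Type} [DecidableEq V] {K : Finset V} {lev : V → ℕ} {l : ℕ} {P ν : ℕ → ℕ} {w : ℕ}
  {N : Finset V → ℕ} {C : ℕ → ℕ} {m : Finset V → ℝ} {b : V → ℝ}

/-- the inequality for a set with `k + 1` elements -/
theorem KD.main (h : KD K lev l P ν w N C m b) {g : ℕ}
    (hq : 200 * (K.card : ℝ) ^ 4 ≤ P 0)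
    (hq' : 101 * (K.card : ℝ) ^ 2 * ((P (l + 1) : ℝ) - P 0) ≤ P 0)
    (hg : GapOk P ν (l + 1) g) :
    (P 0 : ℝ) ^ g * (∏ j ∈ range (l + 1), (P j : ℝ)) * (rn P ν C (l + 1) * Ival m K) ≤
      1 + ∑ x ∈ K, b x / Rob.pal m {x} := by
  classical
  have hn := h.card_three
  have hS0 := h.S_nonneg
  have hR0 := rn_nonneg P ν C (l + 1)
  have hI0 := (Ival_pos h.pos K).le
  have hq0 : (1 : ℝ) ≤ P 0 := by exact_mod_cast h.q1
  have hW := h.weight_le
  have hsum := h.sum_pairs_le
  have hPr : 0 ≤ ∏ j ∈ range (l + 1), (P j : ℝ) := prod_nonneg fun _ _ => Nat.cast_nonneg _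
  rcases hg with ⟨hg1, hg2⟩ | hg2
  · -- the profile is close to `q, ..., q, q + 1, ..., q + L`
    rw [show l + 1 + 1 = l + 2 by ring] at hg1 hg2
    obtain ⟨hh, hν⟩ := h.gap_one hg1
    rw [hg2]
    set T : ℝ := (P 0 : ℝ) ^ (∑ j ∈ range (l + 2), (ν j - 1)) * ∏ j ∈ range (l + 1), (P j : ℝ)
      with hT
    have hwt := h.weighted hq' hW
    have hR2 : rn P ν C (l + 1) ≤ 201 / 100 := by
      have h8 := h.bn_top hq' hν
      have h9 : ((P (l + 1) : ℝ) - P 0 + 1 + K.card) / P 0 ≤ 1 / 100 := by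
        rw [div_le_iff₀ (by linarith)]
        set n : ℝ := (K.card : ℝ)
        have h11 : (9 : ℝ) ≤ n ^ 2 := by nlinarith
        have h12 : n ^ 4 = n ^ 2 * n ^ 2 := by ring
        nlinarith
      exact rn_le_last (by norm_num) (by linarith)
    have hLHS : T * (rn P ν C (l + 1) * Ival m K) ≤
        rn P ν C (l + 1) * (101 / 100 * ∑ e ∈ K.powersetCard 2, Ival m e) := by
      calc T * (rn P ν C (l + 1) * Ival m K) = rn P ν C (l + 1) * (T * Ival m K) := by ring
        _ ≤ _ := mul_le_mul_of_nonneg_left hwt hR0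
    have hn2 : (9 : ℝ) ≤ (K.card : ℝ) ^ 2 := by nlinarith
    have hsum0 : 0 ≤ ∑ e ∈ K.powersetCard 2, Ival m e :=
      sum_nonneg fun e _ => (Ival_pos h.pos e).le
    by_cases hcr : ∃ e ∈ K.powersetCard 2, Rob.pal m e < 25 * (K.card : ℝ) ^ 2
    · obtain ⟨e, he, hz⟩ := hcr
      have he' := mem_powersetCard.1 he
      obtain ⟨u, v, huv, rfl⟩ := card_eq_two.1 he'.2
      have hu : u ∈ K := he'.1 (mem_insert_self _ _)
      have hv : v ∈ K := he'.1 (mem_insert_of_mem (mem_singleton_self _))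
      have hS := h.S_ge hu hv huv
      have hb1 : 0 ≤ b u / Rob.pal m {u} :=
        div_nonneg (h.b0 u hu) (by linarith [h.pal_one_ge hu])
      have hb2 : 0 ≤ b v / Rob.pal m {v} :=
        div_nonneg (h.b0 v hv) (by linarith [h.pal_one_ge hv])
      have hbig : rn P ν C (l + 1) * (101 / 100 * ∑ e ∈ K.powersetCard 2, Ival m e) ≤
          102 / 100 * (K.card : ℝ) ^ 2 := by
        calc rn P ν C (l + 1) * (101 / 100 * ∑ e ∈ K.powersetCard 2, Ival m e)
            ≤ 201 / 100 * (101 / 100 * ((K.card : ℝ) ^ 2 / 2)) :=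
              mul_le_mul hR2 (by linarith) (by linarith) (by norm_num)
          _ ≤ _ := by linarith
      by_cases ho : 30 * (K.card : ℝ) ^ 4 ≤ Oo K N u v + ov K N u v
      · have h1 := h.caseA hu hv huv hh hz ho
        linarith
      by_cases ho' : 30 * (K.card : ℝ) ^ 4 ≤ Oo K N v u + ov K N v u
      · have h1 := h.caseA hv hu huv.symm hh (by rw [pair_comm]; exact hz) ho'
        linarith
      push Not at ho ho'
      have hoth := h.others hu hv huv hq hh hz ho ho'
      have hsplit := add_sum_erase (K.powersetCard 2) (Ival m) he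
      have hLHS' : T * (rn P ν C (l + 1) * Ival m K) ≤
          rn P ν C (l + 1) * (101 / 100 * (Ival m {u, v} + 1 / 1350)) := by
        refine hLHS.trans (mul_le_mul_of_nonneg_left ?_ hR0)
        rw [← hsplit]
        linarith
      have hNv := h.N_one_le hu hv hz ho
      have hNu := h.N_one_le hv hu (by rw [pair_comm]; exact hz) ho'
      by_cases hw : N K = w
      · rcases h.crit hu hv huv hq hq' hν hR2 hw hNu hNv with h1 | h1
        · exact hLHS'.trans h1
        · rw [← hT] at h1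
          linarith
      · -- some vertex is not dominated
        have h1 : N K + 1 ≤ w := by
          have := h.NK
          omega
        have h2 := h.N_erase_lt hu
        have h3 := h.N_erase_lt hv
        have h4 : (2 : ℝ) ≤ Rob.pal m {u} := by
          rw [h.pal_one hu]
          have h5 : ((N (K.erase u) + 2 : ℕ) : ℝ) ≤ w := by exact_mod_cast (by omega)
          push_cast at h5
          linarith
        have h5 : (2 : ℝ) ≤ Rob.pal m {v} := by
          rw [h.pal_one hv]
          have h5 : ((N (K.erase v) + 2 : ℕ) : ℝ) ≤ w := by exact_mod_cast (by omega)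
          push_cast at h5
          linarith
        have h6 := h.pal_two_ge hu hv huv
        have h7 : Ival m {u, v} ≤ 1 / 3 := by
          rw [Ival_pair m huv]
          have h8 : 1 / Rob.pal m {u} ≤ 1 / 2 := one_div_le_one_div_of_le (by norm_num) h4
          have h9 : 1 / Rob.pal m {v} ≤ 1 / 2 := one_div_le_one_div_of_le (by norm_num) h5
          rw [div_le_div_iff₀ (by linarith) (by norm_num)]
          linarith
        have h8 : 0 ≤ Ival m {u, v} := (Ival_pos h.pos _).le
        nlinarith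
    · push Not at hcr
      have h1 := h.sum_pairs_le' (M := 25 * (K.card : ℝ) ^ 2) (by positivity)
        (K.powersetCard 2) Subset.rfl hcr
      have h2 : (K.card : ℝ) ^ 2 / (25 * (K.card : ℝ) ^ 2) = 1 / 25 := by
        field_simp
      rw [h2] at h1
      nlinarith
  · -- the exponent is smaller
    rw [show l + 1 + 1 = l + 2 by ring] at hg2
    have hT : (P 0 : ℝ) * ((P 0 : ℝ) ^ g * ∏ j ∈ range (l + 1), (P j : ℝ)) ≤
        (P (l + 1) : ℝ) ^ (K.card - 2) := by
      rw [← mul_assoc, ← pow_succ', hg2]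
      exact hW
    have hwt := h.weighted hq' hT
    have hR := h.rn_le_card hq'
    set T : ℝ := (P 0 : ℝ) ^ g * ∏ j ∈ range (l + 1), (P j : ℝ) with hTd
    have hT0 : 0 ≤ T := mul_nonneg (by positivity) hPr
    have h1 : (P 0 : ℝ) * (T * Ival m K) ≤ 101 / 200 * (K.card : ℝ) ^ 2 := by
      have h2 : (P 0 : ℝ) * (T * Ival m K) = (P 0 : ℝ) * T * Ival m K := by ring
      rw [h2]
      linarith
    have h2 : (P 0 : ℝ) * (T * (rn P ν C (l + 1) * Ival m K)) ≤
        (K.card : ℝ) * (101 / 200 * (K.card : ℝ) ^ 2) := by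
      calc (P 0 : ℝ) * (T * (rn P ν C (l + 1) * Ival m K))
          = rn P ν C (l + 1) * ((P 0 : ℝ) * (T * Ival m K)) := by ring
        _ ≤ (K.card : ℝ) * (101 / 200 * (K.card : ℝ) ^ 2) :=
          mul_le_mul hR h1 (by positivity) (by positivity)
    have h3 : (K.card : ℝ) * (101 / 200 * (K.card : ℝ) ^ 2) ≤ P 0 := by
      have h4 : (K.card : ℝ) ^ 4 = (K.card : ℝ) * (K.card : ℝ) ^ 3 := by ring
      have h5 : (K.card : ℝ) ^ 3 = (K.card : ℝ) * (K.card : ℝ) ^ 2 := by ring
      have h6 : 0 ≤ (K.card : ℝ) ^ 3 := by positivity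
      nlinarith
    have h4 : T * (rn P ν C (l + 1) * Ival m K) ≤ 1 := by
      by_contra hcon
      push Not at hcon
      have h5 : (P 0 : ℝ) * 1 < (P 0 : ℝ) * (T * (rn P ν C (l + 1) * Ival m K)) :=
        mul_lt_mul_of_pos_left hcon (by linarith)
      linarith
    linarith

end MP76b19e.Reg
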