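import Pool.Agent.Lib.MP76b19e.Reg.H
import Pool.Agent.Lib.MP76b19e.Rob.LocZ

/-!
# The local inequality for large `P 0` (problem MP_76b19e_co)

`Loc.large`: the local inequality for the sets `Y ∈ MIS F W` with more than `k = ∑ ν j` elements, if
there are no pendants and `P 0 ≥ 200 (k + 1) ^ 4`.
-/

set_option autoImplicit false

open Finset

namespace MP76b19e.Reg

open MP76b19e.Rob

variable {V β : Type} [Fintype V] [DecidableEq V] [DecidableEq β] {F : SimpleGraph V}
  {W Y : Finset V} {L : ℕ} {X : ℕ → Finset V} {P ν : ℕ → ℕ} {T : ℕ → ℕ} {B : Finset β}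
  {M : V → Finset β} {c : Finset V → ℕ}

theorem CN_singleton (v : V) : CN F {v} = cn F v := by
  ext u
  rw [mem_CN, mem_cn]
  constructor
  · rintro ⟨z, hz, h⟩
    rw [mem_singleton] at hz
    rw [← hz]
    exact h
  · intro h
    exact ⟨v, mem_singleton_self v, h⟩

theorem CN_subset_W (hnp : NoPend F W) {A : Finset V} (hA : A ⊆ W) : CN F A ⊆ W := by
  intro u hu
  rw [mem_CN] at hu
  obtain ⟨z, hz, h | h⟩ := hu
  · rw [h]
    exact hA hz
  · exact hnp u z h

/-- the data of a subset `K` with `k + 1` elements -/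
theorem Loc.kd {l : ℕ} (h : Loc F W (l + 1) X P ν 0 T B M c) (hnp : NoPend F W)
    (hY : Y ∈ MIS F W) {m : Finset V → ℝ} (hpm : PosM m)
    (hm : ∀ D ⊆ Y, m D = mY F W Y D) {K S : Finset V} (hK : K ⊆ Y) (hS : S = Y \ K)
    (hKc : K.card = Nn ν (l + 1) + 1) :
    KD K (levX X) l (Pe P (l + 1)) ν W.card (fun A => (CN F A).card) (CY F Y (levX X))
      (push m S) (fun u => (c (K.erase u) : ℝ)) := by
  classical
  have hLv := Lv_of h.Xmono h.XL hY
  have hW : ∀ v ∈ W, v ∈ X (l + 1) := fun v hv => by rw [h.XL (l + 1) le_rfl]; exact hv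
  have hKW : K ⊆ W := hK.trans hLv.Y_sub
  have hcnW : ∀ v ∈ W, cn F v ∩ W = cn F v := fun v hv => by
    rw [inter_eq_left, ← CN_singleton]
    exact CN_subset_W hnp (singleton_subset_iff.2 hv)
  have hcol : ∀ v ∈ W, (cn F v).card + (M v).card ≤ Pe P (l + 1) (levX X v) := by
    intro v hv
    have h2 := levX_spec (hW v hv)
    have h3 := h.colW _ h2.2.1 v h2.1 h2.2.2 (cn F v ∩ W) (fun u => by
      rw [mem_inter, mem_cn]
      exact and_comm)
    rw [Pe_of_le h2.2.1]
    rwa [hcnW v hv] at h3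
  have hind : ∀ x ∈ Y, ∀ y ∈ Y, ¬ F.Adj x y := hLv.indep
  refine ⟨?_, Pe_mono h.Pmono, h.ν1, hKc, fun x hx => (levX_spec (hW x (hKW hx))).2.1, ?_, ?_, ?_,
    ?_, ?_, ?_, ?_, hpm.push S, ?_, ?_, ?_, ?_, ?_⟩
  · rw [Pe_of_le (Nat.zero_le _)]
    have := h.q2
    omega
  · have h1 := h.Xcard (l + 1) le_rfl
    rw [h.XL (l + 1) le_rfl] at h1
    rw [Pe_of_le le_rfl, h1]
    congr 1
    refine sum_congr rfl fun i hi => ?_
    rw [Pe_of_le (by have := mem_range.1 hi; omega)]
  · rw [card_eq_zero, eq_empty_iff_forall_notMem]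
    intro u hu
    obtain ⟨z, hz, _⟩ := mem_CN.1 hu
    exact absurd hz (notMem_empty z)
  · intro A A' hAA
    exact card_le_card (CN_mono hAA)
  · intro A A'
    refine (card_le_card ?_).trans (card_union_le _ _)
    intro u hu
    obtain ⟨z, hz, h1⟩ := mem_CN.1 hu
    rw [mem_union] at hz ⊢
    rcases hz with hz | hz
    · exact Or.inl (mem_CN.2 ⟨z, hz, h1⟩)
    · exact Or.inr (mem_CN.2 ⟨z, hz, h1⟩)
  · intro x hx
    rw [CN_singleton]
    have := hcol x (hKW hx)
    omega
  · intro A hA x hx hxA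
    refine Nat.succ_le_of_lt (card_lt_card ?_)
    rw [ssubset_iff_of_subset (CN_mono (subset_insert x A))]
    refine ⟨x, mem_CN.2 ⟨x, mem_insert_self x A, Or.inl rfl⟩, ?_⟩
    intro hx'
    obtain ⟨z, hz, h1 | h1⟩ := mem_CN.1 hx'
    · rw [h1] at hxA
      exact hxA hz
    · exact hind x (hK hx) z (hK (hA hz)) h1
  · exact card_le_card (CN_subset_W hnp hKW)
  · intro A hA
    have hdAS : Disjoint A S := by
      rw [hS]
      exact disjoint_sdiff_self_right.mono_left hA
    have hAS : A ∪ S ⊆ Y := by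
      rw [hS]
      exact union_subset (hA.trans hK) sdiff_subset
    rw [pal_push hdAS]
    have h1 : Rob.pal m (A ∪ S) = Rob.pal (mY F W Y) (A ∪ S) := by
      unfold Rob.pal
      exact sum_congr rfl fun D hD => hm D ((mem_powerset.1 hD).trans hAS)
    have h2 : Y \ (A ∪ S) = K \ A := by
      ext v
      rw [hS, mem_sdiff, mem_union, mem_sdiff, mem_sdiff]
      constructor
      · rintro ⟨h3, h4⟩
        push Not at h4
        exact ⟨h4.2 h3, h4.1⟩
      · rintro ⟨h3, h4⟩
        refine ⟨hK h3, ?_⟩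
        rintro (h5 | h5)
        · exact h4 h5
        · exact h5.2 h3
    rw [h1, pal_mY hAS, h2, card_Und, inter_eq_left.2
      (CN_subset_W hnp (sdiff_subset.trans hKW))]
  · intro j _
    refine card_le_card (CN_subset_W hnp ?_)
    exact (filter_subset _ _).trans hLv.Y_sub
  · intro hNK j _
    have h1 : CN F K = W := eq_of_subset_of_card_le (CN_subset_W hnp hKW) hNK.ge
    have h2 : Y = K := by
      refine Subset.antisymm (fun y hy => ?_) hK
      have h3 : y ∈ CN F K := by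
        rw [h1]
        exact hLv.Y_sub hy
      obtain ⟨z, hz, h4 | h4⟩ := mem_CN.1 h3
      · rw [h4]
        exact hz
      · exact absurd h4 (hind y hy z (hK hz))
    unfold CY
    rw [h2]
    congr 2
    unfold Kl
    refine filter_congr fun k _ => ?_
    omega
  · intro u _
    exact Nat.cast_nonneg _
  · intro u hu
    have hcard : (K.erase u).card = ∑ j ∈ range (l + 1 + 1), ν j := by
      rw [card_erase_of_mem hu, hKc]
      unfold Nn
      omega
    have h1 := h.c1 (K.erase u) (mem_Ind.2 ⟨(erase_subset _ _).trans hKW,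
      fun x hx y hy => hind x (hK (mem_of_mem_erase hx)) y (hK (mem_of_mem_erase hy))⟩) 0 le_rfl
      (by rw [add_zero]; exact hcard)
    rw [h.T0, add_zero] at h1
    have h2 : ((K.erase u).biUnion M).card ≤ ∑ x ∈ K.erase u, (M x).card := card_biUnion_le
    have h3 : (P (l + 1) : ℝ) ≤ c (K.erase u) + ∑ x ∈ K.erase u, ((M x).card : ℝ) := by
      exact_mod_cast h1.trans (Nat.add_le_add_left h2 _)
    have h4 : ∑ x ∈ K.erase u, ((M x).card : ℝ) ≤
        ∑ x ∈ K.erase u, ((Pe P (l + 1) (levX X x) : ℝ) - (CN F {x}).card) := by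
      refine sum_le_sum fun x hx => ?_
      have h5 := hcol x (hKW (mem_of_mem_erase hx))
      rw [CN_singleton]
      have h6 : ((cn F x).card : ℝ) + (M x).card ≤ Pe P (l + 1) (levX X x) := by
        exact_mod_cast h5
      linarith
    rw [Pe_of_le le_rfl]
    change (P (l + 1) : ℝ) - _ ≤ _
    linarith

/-- the condition on the profile depends only on the levels up to the last one -/
theorem GapOk_Pe {l g : ℕ} (h : GapOk P ν (l + 1) g) : GapOk (Pe P (l + 1)) ν (l + 1) g := by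
  rcases h with h | h
  · left
    have h1 : ∀ j ∈ range (l + 1 + 1), Pe P (l + 1) j = P j := fun j hj => by
      rw [Pe_of_le (by have := mem_range.1 hj; omega)]
    have h0 : Pe P (l + 1) 0 = P 0 := Pe_of_le (Nat.zero_le _)
    have e1 : ∑ j ∈ range (l + 1 + 1), (ν j - 1) * (Pe P (l + 1) j - Pe P (l + 1) 0) =
        ∑ j ∈ range (l + 1 + 1), (ν j - 1) * (P j - P 0) :=
      sum_congr rfl fun j hj => by rw [h1 j hj, h0]
    have e2 : ∑ j ∈ range (l + 1 + 1), (Pe P (l + 1) j - Pe P (l + 1) 0 - j) =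
        ∑ j ∈ range (l + 1 + 1), (P j - P 0 - j) :=
      sum_congr rfl fun j hj => by rw [h1 j hj, h0]
    rw [e1, e2]
    exact h
  · exact Or.inr h

/-- the local inequality for the maximal independent sets with more than `k` elements -/
theorem Loc.large {l : ℕ} (h : Loc F W (l + 1) X P ν 0 T B M c) (hnp : NoPend F W) {n : ℕ}
    (hY : Y ∈ MIS F W) (hc : Nn ν (l + 1) < Y.card) {g : ℕ} (hg : GapOk P ν (l + 1) g)
    (hq : 200 * ((Nn ν (l + 1) : ℝ) + 1) ^ 4 ≤ P 0)
    (hq' : 101 * ((Nn ν (l + 1) : ℝ) + 1) ^ 2 * ((P (l + 1) : ℝ) - P 0) ≤ P 0) :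
    ((P 0 : ℝ) ^ g * ∏ j ∈ range (l + 1), (P j : ℝ)) *
        ∑ s ∈ univ.filter (fun s : V ≃ Fin n => gr F W s = Y),
          RM F X (fun _ => 1) (fun j => (P j : ℝ)) s (l + 1) ≤
      (Fintype.card (V ≃ Fin n) : ℝ) * CapT F W (fun K => (c K : ℝ)) Y := by
  classical
  have hLv := Lv_of h.Xmono h.XL hY
  have hcp := h.cp hLv.Y_sub
  have hP0 : 0 < P 0 := by have := h.q2; omega
  have hPp := Pe_pos h.Pmono hP0
  have hPm := Pe_mono h.Pmono
  have hXc : ∀ j, j < l + 1 → ((X j).card : ℝ) = Rob.Ss (Pe P (l + 1)) ν j -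
      Pe P (l + 1) j + 1 := fun j hj => h.Ss hj.le
  have hRM : ∀ s : V ≃ Fin n, RM F X (fun _ => 1) (fun j => (P j : ℝ)) s (l + 1) =
      RM F X (fun _ => 1) (fun j => (Pe P (l + 1) j : ℝ)) s (l + 1) := fun s =>
    RM_congr (fun j hj => by rw [Pe_of_le hj.le]) s
  rw [sum_congr rfl fun s _ => hRM s]
  set m := mZ F W X ∅ Y with hmdef
  have hpm : PosM m := mZ_pos
  have hmm : ∀ D ⊆ Y, m D = mY F W Y D := by
    intro D hD
    refine mZ_eq_mY (i := 0) (j := l + 2) hLv (Or.inl rfl)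
      (fun z hz => absurd hz (notMem_empty z)) ?_
    intro k hk
    rw [mem_Bl]
    exact ⟨hD hk, Nat.zero_le _, by have := hcp.le k (hLv.Y_sub (hD hk)); omega⟩
  set R := rn (Pe P (l + 1)) ν (CY F Y (levX X)) (l + 1) with hR
  have hR0 : 0 ≤ R := rn_nonneg _ _ _ _
  have hTw : 0 ≤ (P 0 : ℝ) ^ g * ∏ j ∈ range (l + 1), (P j : ℝ) :=
    mul_nonneg (by positivity) (prod_nonneg fun _ _ => Nat.cast_nonneg _)
  -- the sum over the orders
  have hsum : ∑ s ∈ univ.filter (fun s : V ≃ Fin n => gr F W s = Y),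
      RM F X (fun _ => 1) (fun j => (Pe P (l + 1) j : ℝ)) s (l + 1) ≤
        (Fintype.card (V ≃ Fin n) : ℝ) * Ival m Y * R := by
    have h1 : ∀ s ∈ univ.filter (fun s : V ≃ Fin n => gr F W s = Y),
        RM F X (fun _ => 1) (fun j => (Pe P (l + 1) j : ℝ)) s (l + 1) ≤ R := fun s hs =>
      RM_le hLv hXc (mem_filter.1 hs).2
    refine (sum_le_sum h1).trans ?_
    rw [sum_const, nsmul_eq_mul]
    refine mul_le_mul_of_nonneg_right ?_ hR0
    have h2 := decouple (F := F) (W := W) (X := X) (Z := ∅) (Y := Y) (n := n)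
    refine le_trans (le_of_eq ?_) h2
    congr 2
    ext s
    rw [mem_filter, mem_filter]
    constructor
    · rintro ⟨h3, h4⟩
      exact ⟨h3, h4, fun z hz => absurd hz (notMem_empty z)⟩
    · rintro ⟨h3, h4, _⟩
      exact ⟨h3, h4⟩
  obtain ⟨d, hd⟩ : ∃ d, Y.card = Nn ν (l + 1) + 1 + d := ⟨Y.card - Nn ν (l + 1) - 1, by omega⟩
  have hk := kwise (F := F) (W := W) (c := fun K => (c K : ℝ)) (fun K => Nat.cast_nonneg _)
    (Y := Y) (Yb := Y) (d := d) Subset.rfl (by omega) hpm
    (T := ((P 0 : ℝ) ^ g * ∏ j ∈ range (l + 1), (P j : ℝ)) * R) (mul_nonneg hTw hR0)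
    (fun S hS => le_of_eq (Ival_congr fun D hD => hmm D (hD.trans hS)))
    (by
      intro S hS hSd
      have hKY : Y \ S ⊆ Y := sdiff_subset
      have hKc : (Y \ S).card = Nn ν (l + 1) + 1 := by
        rw [card_sdiff_of_subset hS]
        omega
      have hkd := Loc.kd h hnp hY hpm hmm hKY (Finset.sdiff_sdiff_eq_self hS).symm hKc
      have hKcR : ((Y \ S).card : ℝ) = (Nn ν (l + 1) : ℝ) + 1 := by
        rw [hKc]
        push_cast
        rfl
      have hmain := hkd.main (g := g)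
        (by rw [hKcR, Pe_of_le (Nat.zero_le _)]; exact hq)
        (by rw [hKcR, Pe_of_le (Nat.zero_le _), Pe_of_le le_rfl]; exact hq')
        (GapOk_Pe hg)
      have h1 : (Pe P (l + 1) 0 : ℝ) ^ g * (∏ j ∈ range (l + 1), (Pe P (l + 1) j : ℝ)) =
          (P 0 : ℝ) ^ g * ∏ j ∈ range (l + 1), (P j : ℝ) := by
        rw [Pe_of_le (Nat.zero_le _)]
        congr 1
        exact prod_congr rfl fun j hj => by rw [Pe_of_le (mem_range.1 hj).le]
      rw [h1, ← hR, ← mul_assoc] at hmain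
      refine hmain.trans ?_
      have hind : ∀ x ∈ Y \ S, ∀ y ∈ Y \ S, ¬ F.Adj x y := fun x hx y hy =>
        hLv.indep x (hKY hx) y (hKY hy)
      have h2 := h.c2 (Y \ S) (mem_Ind.2 ⟨hKY.trans hLv.Y_sub, hind⟩) (by
        rw [hKc]
        rfl)
      have h3 : (1 : ℝ) ≤ (c (Y \ S) : ℝ) := by exact_mod_cast h2
      have h4 : ∑ x ∈ Y \ S, (c ((Y \ S).erase x) : ℝ) / Rob.pal (push m S) {x} =
          ∑ u ∈ Y \ S, (c (Y \ insert u S) : ℝ) / Rob.pal (mY F W Y) (insert u S) := by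
        refine sum_congr rfl fun u hu => ?_
        have hu' := mem_sdiff.1 hu
        have h5 : Y \ insert u S = (Y \ S).erase u := by
          ext v
          rw [mem_sdiff, mem_insert, mem_erase, mem_sdiff]
          tauto
        have h6 : Rob.pal (push m S) {u} = Rob.pal (mY F W Y) (insert u S) := by
          rw [pal_push (disjoint_singleton_left.2 hu'.2), ← insert_eq]
          unfold Rob.pal
          refine sum_congr rfl fun D hD => hmm D ((mem_powerset.1 hD).trans ?_)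
          exact insert_subset hu'.1 hS
        rw [h5, h6]
      rw [h4]
      linarith)
  calc ((P 0 : ℝ) ^ g * ∏ j ∈ range (l + 1), (P j : ℝ)) *
        ∑ s ∈ univ.filter (fun s : V ≃ Fin n => gr F W s = Y),
          RM F X (fun _ => 1) (fun j => (Pe P (l + 1) j : ℝ)) s (l + 1)
      ≤ ((P 0 : ℝ) ^ g * ∏ j ∈ range (l + 1), (P j : ℝ)) *
          ((Fintype.card (V ≃ Fin n) : ℝ) * Ival m Y * R) :=
        mul_le_mul_of_nonneg_left hsum hTw
    _ = (Fintype.card (V ≃ Fin n) : ℝ) *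
          (((P 0 : ℝ) ^ g * ∏ j ∈ range (l + 1), (P j : ℝ)) * R * Ival m Y) := by ring
    _ ≤ _ := mul_le_mul_of_nonneg_left hk (Nat.cast_nonneg _)

end MP76b19e.Reg
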